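/-
MP_85545d : billiards whose invariant circles fill the region between the rotation numbers 1/3 and 1/2.
Definitions.  Paper proof: team-store UP3_85545d_h1.md.  Basis: Pool/Agent/H1/BP (see team-store H1_BIL.md).
-/
import Mathlib
import Pool.Agent.H1.BP.Der

set_option autoImplicit false

namespace Pool.Agent.H1.BS

open Pool.Agent.H1.BP

noncomputable section

/-- the weight `b + sin b` with `b = pi - 2 d` -/
def cf (d : ℝ) : ℝ := Real.pi - 2 * d + Real.sin (2 * d)

/-- `h'' (h + h'')` -/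
def wt (h : ℝ → ℝ) (a : ℝ) : ℝ := deriv (deriv h) a * (h a + deriv (deriv h) a)

/-- `q . n(a)` -/
def qn (q : ℂ) (a : ℝ) : ℝ := q.re * Real.cos a + q.im * Real.sin a

/-- `q . t(a)` -/
def qt (q : ℂ) (a : ℝ) : ℝ := q.im * Real.cos a - q.re * Real.sin a

/-- the second variation density of the test field `1` -/
def G1 (h : ℝ → ℝ) (x y : ℝ) : ℝ := (Sxx h x y + 2 * R h x y + Syy h x y) * R h x y

/-- `b rho T` at the bounce between the lines `X s` and `X (s + 2 pi)` -/
def Fb (h X : ℝ → ℝ) (q : ℝ → ℂ) (s : ℝ) : ℝ :=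
  (Real.pi - 2 * dd X s) * (h (ps X s) - qn (q s) (ps X s)) * deriv h (ps X s)

/-- the inradius `r = rho cos d` -/
def rr (h X : ℝ → ℝ) (q : ℝ → ℂ) (s : ℝ) : ℝ :=
  Real.cos (dd X s) * (h (ps X s) - qn (q s) (ps X s))

/-- the energy density of the incenter loop at one bounce -/
def eb (X : ℝ → ℝ) (q' : ℂ) (s : ℝ) : ℝ := cf (dd X s) * qt q' (ps X s) ^ 2 / deriv (ps X) s

end

end Pool.Agent.H1.BS
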