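/-
ROW Pm.  Perimeter of the triangles and length of their sides, for a body of constant width 2m.
(1) side_le: ℓ := 2 pieces.  With a0 = ps X s, d0 = dd X s (bounce between x0 = X s and x1 = X (s+2pi)), a1 = ps X (s+2pi), d1 = dd X (s+2pi) (bounce between x1 and x2); x1 = a0 + d0 = a1 - d1.
  support_lt (BP/Wid: h x cos s + h' x sin s < h (x+s) for 0 < s < 2pi) at a1 with s = pi/2 - d1 > 0 (d1 < pi/2 by hX.gap): h a1 sin d1 + h' a1 cos d1 < h (x1 + pi/2);
  at a0 with s = d0 - pi/2 + 2 pi: h a0 sin d0 - h' a0 cos d0 < h (a0 + d0 - pi/2 + 2 pi) = h (x1 - pi/2) and h (x1 - pi/2) + h (x1 + pi/2) = 2m (hm at x1 - pi/2).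
(2) per_ge: calib (BP/Mx1): G' = p0 h x (f x) =: g, SS h x (f x) - G (f x) + G x = M, SS h x y - G y + G x <= M for x < y < x + 2pi.  g is 2pi-periodic (hf.per, p0_per), so G (x+2pi) - G x = H0 is
  constant.  Sum of the equality over x = X s, X (s+2pi), X (s+4pi) (f (X (s+4pi)) = X (s+6pi) = X s + 2pi): P - H0 = 3M where P = sum SS.  For every y: y, y + 2pi/3, y + 4pi/3 with the inequality:
  sum_j SS h (y + 2pi j/3) (y + 2pi (j+1)/3) - H0 <= 3M, SS h z (z + 2pi/3) = 2 h (z + pi/3) sin (pi/3) = sqrt 3 * h (z + pi/3).  So P >= sqrt 3 * sum_j h (y + pi/3 + 2 pi j/3) for all y.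
  Add the inequalities for y and y + pi: 2 P >= sqrt 3 * 3 * 2m.
  SS h (X s) (X (s+2pi)) = 2 h (ps X s) sin (dd X s).
-/
import Pool.Agent.H1.BS.Defs
import Pool.Agent.H1.BP.Wid
import Pool.Agent.H1.BP.Mx1
import Pool.Agent.H1.BP.Core

set_option autoImplicit false

namespace Pool.Agent.H1.BS

open Pool.Agent.H1.BP

variable {h : ℝ → ℝ}

theorem side_le (hs : Supp h) {m : ℝ} (hm : ∀ x, h x + h (x + Real.pi) = 2 * m) {X : ℝ → ℝ} (hX : Tri X) (s : ℝ) :
    h (ps X (s + 2 * Real.pi)) * Real.sin (dd X (s + 2 * Real.pi))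
        + deriv h (ps X (s + 2 * Real.pi)) * Real.cos (dd X (s + 2 * Real.pi))
        + (h (ps X s) * Real.sin (dd X s) - deriv h (ps X s) * Real.cos (dd X s)) ≤ 2 * m := by
  have hmono : StrictMono X := strictMono_of_deriv_pos hX.pos
  have hpi := Real.pi_pos
  have g0 := hX.gap s
  have g1 := hX.gap (s + 2 * Real.pi)
  have m0 : X s < X (s + 2 * Real.pi) := hmono (by linarith)
  have m1 : X (s + 2 * Real.pi) < X (s + 2 * Real.pi + 2 * Real.pi) := hmono (by linarith)
  have e1 := support_lt hs (ps X (s + 2 * Real.pi)) (Real.pi / 2 - dd X (s + 2 * Real.pi))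
    (by unfold dd; linarith) (by unfold dd; linarith)
  rw [Real.cos_pi_div_two_sub, Real.sin_pi_div_two_sub] at e1
  have e2 := support_lt hs (ps X s) (dd X s - Real.pi / 2 + 2 * Real.pi)
    (by unfold dd; linarith) (by unfold dd; linarith)
  rw [Real.cos_add_two_pi, Real.sin_add_two_pi, Real.cos_sub_pi_div_two, Real.sin_sub_pi_div_two] at e2
  have e3 : ps X (s + 2 * Real.pi) + (Real.pi / 2 - dd X (s + 2 * Real.pi)) =
      (X (s + 2 * Real.pi) - Real.pi / 2) + Real.pi := by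
    unfold ps dd; ring
  have e4 : ps X s + (dd X s - Real.pi / 2 + 2 * Real.pi) =
      (X (s + 2 * Real.pi) - Real.pi / 2) + 2 * Real.pi := by
    unfold ps dd; ring
  rw [e3] at e1
  rw [e4, hs.per] at e2
  have e5 := hm (X (s + 2 * Real.pi) - Real.pi / 2)
  linarith

theorem per_ge (hs : Supp h) {m : ℝ} (hm : ∀ x, h x + h (x + Real.pi) = 2 * m) {f : ℝ → ℝ} (hf : Circle h f)
    {X : ℝ → ℝ} (hX : Tri X) (hXf : ∀ s, X (s + 2 * Real.pi) = f (X s)) (s : ℝ) :
    3 * Real.sqrt 3 * m ≤ 2 * h (ps X s) * Real.sin (dd X s)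
      + 2 * h (ps X (s + 2 * Real.pi)) * Real.sin (dd X (s + 2 * Real.pi))
      + 2 * h (ps X (s + 4 * Real.pi)) * Real.sin (dd X (s + 4 * Real.pi)) := by
  have hpi := Real.pi_pos
  obtain ⟨G, M, hG, hM, hle⟩ := calib hs hf
  have hc : ∀ z w, G (z + 2 * Real.pi) - G z = G (w + 2 * Real.pi) - G w := by
    have hd : ∀ z, HasDerivAt (fun z => G (z + 2 * Real.pi) - G z) 0 z := by
      intro z
      have k1 : HasDerivAt (fun z => G (z + 2 * Real.pi))
          (p0 h (z + 2 * Real.pi) (f (z + 2 * Real.pi))) z :=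
        HasDerivAt.comp_add_const z (2 * Real.pi) (hG (z + 2 * Real.pi))
      have k2 := k1.sub (hG z)
      refine HasDerivAt.congr_deriv k2 ?_
      rw [hf.per, p0_per hs]
      ring
    intro z w
    exact is_const_of_deriv_eq_zero (f := fun z => G (z + 2 * Real.pi) - G z)
      (fun z => (hd z).differentiableAt) (fun z => (hd z).deriv) z w
  -- the triangle
  have hSS : ∀ t, 2 * h (ps X t) * Real.sin (dd X t) = SS h (X t) (X (t + 2 * Real.pi)) := by
    intro t
    unfold SS ps dd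
    rw [add_comm (X (t + 2 * Real.pi)) (X t)]
  have k0 := hM (X s)
  have k1 := hM (X (s + 2 * Real.pi))
  have k2 := hM (X (s + 4 * Real.pi))
  rw [← hXf] at k0 k1 k2
  rw [show s + 2 * Real.pi + 2 * Real.pi = s + 4 * Real.pi by ring] at k1
  have e6 : X (s + 4 * Real.pi + 2 * Real.pi) = X s + 2 * Real.pi := by
    rw [show s + 4 * Real.pi + 2 * Real.pi = s + 6 * Real.pi by ring, hX.per]
  rw [hSS s, hSS (s + 2 * Real.pi), hSS (s + 4 * Real.pi),
    show s + 2 * Real.pi + 2 * Real.pi = s + 4 * Real.pi by ring]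
  rw [e6] at k2 ⊢
  -- the equilateral triangles
  have hsin : Real.sin (Real.pi / 3) = Real.sqrt 3 / 2 := Real.sin_pi_div_three
  have hz : ∀ z, SS h z (z + 2 * Real.pi / 3) = Real.sqrt 3 * h (z + Real.pi / 3) := by
    intro z
    unfold SS
    rw [show (z + (z + 2 * Real.pi / 3)) / 2 = z + Real.pi / 3 by ring,
      show (z + 2 * Real.pi / 3 - z) / 2 = Real.pi / 3 by ring, hsin]
    ring
  have hy : ∀ y, Real.sqrt 3 * h (y + Real.pi / 3) + Real.sqrt 3 * h (y + Real.pi)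
      + Real.sqrt 3 * h (y + 5 * Real.pi / 3) ≤ 3 * M + (G (y + 2 * Real.pi) - G y) := by
    intro y
    have l0 := hle y (y + 2 * Real.pi / 3) (by linarith) (by linarith)
    have l1 := hle (y + 2 * Real.pi / 3) (y + 2 * Real.pi / 3 + 2 * Real.pi / 3) (by linarith)
      (by linarith)
    have l2 := hle (y + 4 * Real.pi / 3) (y + 4 * Real.pi / 3 + 2 * Real.pi / 3) (by linarith)
      (by linarith)
    rw [hz] at l0 l1 l2
    rw [show y + 2 * Real.pi / 3 + Real.pi / 3 = y + Real.pi by ring,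
      show y + 2 * Real.pi / 3 + 2 * Real.pi / 3 = y + 4 * Real.pi / 3 by ring] at l1
    rw [show y + 4 * Real.pi / 3 + Real.pi / 3 = y + 5 * Real.pi / 3 by ring,
      show y + 4 * Real.pi / 3 + 2 * Real.pi / 3 = y + 2 * Real.pi by ring] at l2
    linarith
  have h0 := hy 0
  have h1 := hy Real.pi
  rw [hc Real.pi 0] at h1
  have c0 := hc (X s) 0
  have w0 := hm (Real.pi / 3)
  have w1 := hm Real.pi
  have w2 := hm (5 * Real.pi / 3)
  rw [show (0 : ℝ) + Real.pi / 3 = Real.pi / 3 by ring, show (0 : ℝ) + Real.pi = Real.pi by ring,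
    show (0 : ℝ) + 5 * Real.pi / 3 = 5 * Real.pi / 3 by ring] at h0
  rw [show Real.pi + Real.pi / 3 = Real.pi / 3 + Real.pi by ring,
    show Real.pi + 5 * Real.pi / 3 = 5 * Real.pi / 3 + Real.pi by ring] at h1
  have q : Real.sqrt 3 * (h (Real.pi / 3) + h (Real.pi / 3 + Real.pi))
      + Real.sqrt 3 * (h Real.pi + h (Real.pi + Real.pi))
      + Real.sqrt 3 * (h (5 * Real.pi / 3) + h (5 * Real.pi / 3 + Real.pi)) =
      6 * (Real.sqrt 3 * m) := by
    rw [w0, w1, w2]
    ring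
  have q2 : 3 * Real.sqrt 3 * m = 3 * (Real.sqrt 3 * m) := by ring
  rw [q2]
  have q3 : ∀ a b : ℝ, Real.sqrt 3 * (a + b) = Real.sqrt 3 * a + Real.sqrt 3 * b := fun a b => by
    ring
  rw [q3, q3, q3] at q
  linarith

end Pool.Agent.H1.BS
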