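/-
ROW Ac.  The triangles are acute, so the sines of their angles add up to at least 2.
PROOF.  d_k = dd X (s + 2 pi k) in (0, pi/2), sum = pi (hX.per, hX.gap, hX.pos), t_k = tan d_k > 0, t0+t1+t2 = t0 t1 t2 (from d2 = pi - d0 - d1: e.g. sin (d0+d1+d2) = 0 expanded, divided by the cosines).
With the incenter representation h a_k = qn q a_k + r / cos d_k, h' a_k = qt q a_k (r = rr, the same for all k, definition of rr, cos d_k > 0):
  h a_k sin d_k + h' a_k cos d_k = r t_k + qt q (a_k - d_k),  h a_k sin d_k - h' a_k cos d_k = r t_k - qt q (a_k + d_k),   x_{k+1} = a_k + d_k = a_{k+1} - d_{k+1}.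
  So side_le says r (t_k + t_{k+1}) <= 2m and, adding the two displayed lines over k, sum_k 2 h a_k sin d_k = 2 r (t0+t1+t2), so per_ge says 3 sqrt 3 m <= 2 r S, S = t0+t1+t2.
  m > 0 (width_pos), so r > 0.  4 S r >= 6 sqrt 3 m >= 3 sqrt 3 r (t_k + t_{k+1}) : t_k + t_{k+1} <= (4/(3 sqrt 3)) S <= 0.77 S (sqrt 3 >= 1.7321).
Claim t_j >= 1 for every j: let u = S - t_j <= 0.77 S, so u <= 3.35 t_j.  S = t0 t1 t2 <= t_j (u/2)^2, so u < t_j u^2/4, 4 < t_j u <= 3.35 t_j^2, t_j^2 > 1.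
So d_j >= pi/4 (tan monotone: Real.tan_pi_div_four, Real.tan_lt_tan_of_lt_of_lt_pi_div_two), b_j = pi - 2 d_j in [0, pi/2], sin 2 d_j = sin b_j >= (2/pi) b_j (Real.mul_le_sin), sum b_j = pi.
-/
import Pool.Agent.H1.BS.Pm

set_option autoImplicit false

namespace Pool.Agent.H1.BS

open Pool.Agent.H1.BP

variable {h : ℝ → ℝ}

private theorem Ac_tan {d0 d1 d2 : ℝ} (h0 : 0 < d0) (h0' : d0 < Real.pi / 2) (h1 : 0 < d1)
    (h1' : d1 < Real.pi / 2) (h2 : 0 < d2) (h2' : d2 < Real.pi / 2) (hs : d0 + d1 + d2 = Real.pi) :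
    Real.tan d0 + Real.tan d1 + Real.tan d2 = Real.tan d0 * Real.tan d1 * Real.tan d2 := by
  have c0 := Real.cos_pos_of_mem_Ioo ⟨by linarith, h0'⟩
  have c1 := Real.cos_pos_of_mem_Ioo ⟨by linarith, h1'⟩
  have c2 := Real.cos_pos_of_mem_Ioo ⟨by linarith, h2'⟩
  have e2 : d2 = Real.pi - (d0 + d1) := by linarith
  have es : Real.sin d2 = Real.sin d0 * Real.cos d1 + Real.cos d0 * Real.sin d1 := by
    rw [e2, Real.sin_pi_sub, Real.sin_add]
  have ec : Real.cos d2 = -(Real.cos d0 * Real.cos d1 - Real.sin d0 * Real.sin d1) := by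
    rw [e2, Real.cos_pi_sub, Real.cos_add]
  rw [Real.tan_eq_sin_div_cos, Real.tan_eq_sin_div_cos, Real.tan_eq_sin_div_cos]
  field_simp
  rw [es, ec]
  have k0 := Real.sin_sq_add_cos_sq d0
  have k1 := Real.sin_sq_add_cos_sq d1
  ring

/-- the algebraic part: all tangents are at least one -/
private theorem Ac_alg {t u v r m q3 : ℝ} (ht : 0 < t) (hu : 0 < u) (hv : 0 < v) (hr : 0 < r) (hm : 0 < m)
    (hq : 1.7321 - 0.0001 < q3) (hsum : t + u + v = t * u * v) (hper : 3 * q3 * m ≤ 2 * r * (t + u + v))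
    (hside : r * (u + v) ≤ 2 * m) : 1 ≤ t := by
  by_contra hc
  push Not at hc
  have h1 : (u + v) ≤ 0.77 * (t + u + v) := by
    have h2 : 3 * 1.732 * m ≤ 2 * r * (t + u + v) := by nlinarith
    have h3 : 3 * 1.732 * (r * (u + v)) ≤ 4 * (r * (t + u + v)) := by nlinarith
    have h4 : r * (3 * 1.732 * (u + v)) ≤ r * (4 * (t + u + v)) := by linarith
    have h5 := le_of_mul_le_mul_left h4 hr
    linarith
  have h2 : u + v ≤ 3.35 * t := by linarith
  have h3 : u * v ≤ (u + v) ^ 2 / 4 := by nlinarith [sq_nonneg (u - v)]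
  have h4 : t + u + v ≤ t * ((u + v) ^ 2 / 4) := by
    rw [hsum, mul_assoc]
    exact mul_le_mul_of_nonneg_left h3 ht.le
  have h5 : u + v < t * ((u + v) ^ 2 / 4) := by linarith
  have hp : 0 < u + v := by linarith
  have h6 : (u + v) * 4 < (u + v) * (t * (u + v)) := by nlinarith
  have h7 := lt_of_mul_lt_mul_left h6 hp.le
  nlinarith

private theorem Ac_d {X : ℝ → ℝ} (hX : Tri X) (s : ℝ) : 0 < dd X s ∧ dd X s < Real.pi / 2 := by
  have hm : StrictMono X := strictMono_of_deriv_pos hX.pos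
  have h1 := hm (show s < s + 2 * Real.pi by linarith [Real.pi_pos])
  have h2 := hX.gap s
  unfold dd
  constructor <;> linarith

private theorem Ac_X6 {X : ℝ → ℝ} (hX : Tri X) (s : ℝ) :
    X (s + 4 * Real.pi + 2 * Real.pi) = X s + 2 * Real.pi := by
  rw [show s + 4 * Real.pi + 2 * Real.pi = s + 6 * Real.pi by ring, hX.per]

private theorem Ac_sum {X : ℝ → ℝ} (hX : Tri X) (s : ℝ) :
    dd X s + dd X (s + 2 * Real.pi) + dd X (s + 4 * Real.pi) = Real.pi := by
  unfold dd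
  rw [Ac_X6 hX, show s + 2 * Real.pi + 2 * Real.pi = s + 4 * Real.pi by ring]
  ring

private theorem Ac_qm (q : ℂ) (a d : ℝ) :
    qt q (a - d) = Real.cos d * qt q a + Real.sin d * qn q a := by
  unfold qt qn
  rw [Real.cos_sub, Real.sin_sub]
  ring

private theorem Ac_qp (q : ℂ) (a d : ℝ) :
    qt q (a + d) = Real.cos d * qt q a - Real.sin d * qn q a := by
  unfold qt qn
  rw [Real.cos_add, Real.sin_add]
  ring

private theorem Ac_h {X : ℝ → ℝ} (hX : Tri X) {q : ℝ → ℂ} (s : ℝ) :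
    h (ps X s) * Real.sin (dd X s) = rr h X q s * Real.tan (dd X s) + qn (q s) (ps X s) * Real.sin (dd X s) := by
  obtain ⟨h1, h2⟩ := Ac_d hX s
  have hc := Real.cos_pos_of_mem_Ioo ⟨by linarith, h2⟩
  unfold rr
  rw [Real.tan_eq_sin_div_cos]
  field_simp
  ring

private theorem Ac_side (hs : Supp h) {m : ℝ} (hm : ∀ x, h x + h (x + Real.pi) = 2 * m)
    {X : ℝ → ℝ} (hX : Tri X) {q : ℝ → ℂ} (hq : ∀ s, q (s + 2 * Real.pi) = q s)
    (hqt : ∀ s, deriv h (ps X s) = qt (q s) (ps X s))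
    (hr : ∀ s, rr h X q (s + 2 * Real.pi) = rr h X q s) (s : ℝ) :
    rr h X q s * (Real.tan (dd X s) + Real.tan (dd X (s + 2 * Real.pi))) ≤ 2 * m := by
  have h1 := side_le hs hm hX s
  have e0 := Ac_h (h := h) hX (q := q) s
  have e1 := Ac_h (h := h) hX (q := q) (s + 2 * Real.pi)
  rw [hr, hq] at e1
  have f1 := hqt (s + 2 * Real.pi)
  rw [hq] at f1
  have g0 := Ac_qp (q s) (ps X s) (dd X s)
  have g1 := Ac_qm (q s) (ps X (s + 2 * Real.pi)) (dd X (s + 2 * Real.pi))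
  have hx : ps X s + dd X s = ps X (s + 2 * Real.pi) - dd X (s + 2 * Real.pi) := by
    unfold ps dd
    ring
  rw [hx, g1] at g0
  rw [e0, e1, f1, hqt s] at h1
  nlinarith

private theorem Ac_per (hs : Supp h) {m : ℝ} (hm : ∀ x, h x + h (x + Real.pi) = 2 * m) {f : ℝ → ℝ}
    (hf : Circle h f) {X : ℝ → ℝ} (hX : Tri X) (hXf : ∀ s, X (s + 2 * Real.pi) = f (X s)) {q : ℝ → ℂ}
    (hq : ∀ s, q (s + 2 * Real.pi) = q s) (hr : ∀ s, rr h X q (s + 2 * Real.pi) = rr h X q s) (s : ℝ) :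
    3 * Real.sqrt 3 * m ≤ 2 * rr h X q s * (Real.tan (dd X s) + Real.tan (dd X (s + 2 * Real.pi))
      + Real.tan (dd X (s + 4 * Real.pi))) := by
  have h1 := per_ge hs hm hf hX hXf s
  have e0 := Ac_h (h := h) hX (q := q) s
  have e1 := Ac_h (h := h) hX (q := q) (s + 2 * Real.pi)
  have e2 := Ac_h (h := h) hX (q := q) (s + 4 * Real.pi)
  have hs4 : s + 4 * Real.pi = s + 2 * Real.pi + 2 * Real.pi := by ring
  have hq4 : q (s + 4 * Real.pi) = q s := by rw [hs4, hq, hq]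
  have hr4 : rr h X q (s + 4 * Real.pi) = rr h X q s := by rw [hs4, hr, hr]
  rw [hr, hq] at e1
  rw [hr4, hq4] at e2
  have g0 := Ac_qp (q s) (ps X s) (dd X s)
  have g0' := Ac_qm (q s) (ps X s) (dd X s)
  have g1 := Ac_qp (q s) (ps X (s + 2 * Real.pi)) (dd X (s + 2 * Real.pi))
  have g1' := Ac_qm (q s) (ps X (s + 2 * Real.pi)) (dd X (s + 2 * Real.pi))
  have g2 := Ac_qp (q s) (ps X (s + 4 * Real.pi)) (dd X (s + 4 * Real.pi))
  have g2' := Ac_qm (q s) (ps X (s + 4 * Real.pi)) (dd X (s + 4 * Real.pi))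
  have x0 : ps X s - dd X s = X s := by unfold ps dd; ring
  have x1 : ps X s + dd X s = X (s + 2 * Real.pi) := by unfold ps dd; ring
  have x1' : ps X (s + 2 * Real.pi) - dd X (s + 2 * Real.pi) = X (s + 2 * Real.pi) := by unfold ps dd; ring
  have x2 : ps X (s + 2 * Real.pi) + dd X (s + 2 * Real.pi) = X (s + 4 * Real.pi) := by
    unfold ps dd
    rw [show s + 2 * Real.pi + 2 * Real.pi = s + 4 * Real.pi by ring]
    ring
  have x2' : ps X (s + 4 * Real.pi) - dd X (s + 4 * Real.pi) = X (s + 4 * Real.pi) := by unfold ps dd; ring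
  have x3 : ps X (s + 4 * Real.pi) + dd X (s + 4 * Real.pi) = X s + 2 * Real.pi := by
    have := Ac_X6 hX s
    unfold ps dd
    rw [this]
    ring
  have hp : qt (q s) (X s + 2 * Real.pi) = qt (q s) (X s) := by
    unfold qt
    rw [Real.cos_add_two_pi, Real.sin_add_two_pi]
  rw [x0] at g0'
  rw [x1] at g0
  rw [x1'] at g1'
  rw [x2] at g1
  rw [x2'] at g2'
  rw [x3, hp] at g2
  nlinarith

theorem sum_sin_ge (hs : Supp h) {m : ℝ} (hm : ∀ x, h x + h (x + Real.pi) = 2 * m) {f : ℝ → ℝ}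
    (hf : Circle h f)
    {X : ℝ → ℝ} (hX : Tri X) (hXf : ∀ s, X (s + 2 * Real.pi) = f (X s)) {q : ℝ → ℂ}
    (hq : ∀ s, q (s + 2 * Real.pi) = q s) (hqt : ∀ s, deriv h (ps X s) = qt (q s) (ps X s))
    (hr : ∀ s, rr h X q (s + 2 * Real.pi) = rr h X q s) (s : ℝ) :
    2 ≤ Real.sin (2 * dd X s) + Real.sin (2 * dd X (s + 2 * Real.pi)) + Real.sin (2 * dd X (s + 4 * Real.pi)) := by
  have hs2 : s + 2 * Real.pi + 2 * Real.pi = s + 4 * Real.pi := by ring
  have hmp : 0 < m := by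
    have h1 := width_pos hs 0
    rw [hm] at h1
    linarith
  obtain ⟨a0, b0⟩ := Ac_d hX s
  obtain ⟨a1, b1⟩ := Ac_d hX (s + 2 * Real.pi)
  obtain ⟨a2, b2⟩ := Ac_d hX (s + 4 * Real.pi)
  have hsum := Ac_sum hX s
  have htan := Ac_tan a0 b0 a1 b1 a2 b2 hsum
  have t0 := Real.tan_pos_of_pos_of_lt_pi_div_two a0 b0
  have t1 := Real.tan_pos_of_pos_of_lt_pi_div_two a1 b1
  have t2 := Real.tan_pos_of_pos_of_lt_pi_div_two a2 b2
  have hper := Ac_per hs hm hf hX hXf hq hr s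
  have hr4 : rr h X q (s + 4 * Real.pi) = rr h X q s := by rw [← hs2, hr, hr]
  have s0 := Ac_side hs hm hX hq hqt hr s
  have s1 := Ac_side hs hm hX hq hqt hr (s + 2 * Real.pi)
  have s2 := Ac_side hs hm hX hq hqt hr (s + 4 * Real.pi)
  have hd6 : dd X (s + 4 * Real.pi + 2 * Real.pi) = dd X s := by
    unfold dd
    rw [Ac_X6 hX, show s + 4 * Real.pi + 2 * Real.pi + 2 * Real.pi = (s + 2 * Real.pi) + 6 * Real.pi by ring,
      hX.per]
    ring
  rw [hr, hs2] at s1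
  rw [hr4, hd6] at s2
  have hq3 : (1.7321 : ℝ) - 0.0001 < Real.sqrt 3 := by
    apply Real.lt_sqrt_of_sq_lt
    norm_num
  have hq0 : 0 < Real.sqrt 3 := by linarith
  have hrp : 0 < rr h X q s := by
    by_contra hc
    push Not at hc
    have h1 : 0 < 3 * Real.sqrt 3 * m := by positivity
    have h2 : 0 < Real.tan (dd X s) + Real.tan (dd X (s + 2 * Real.pi)) + Real.tan (dd X (s + 4 * Real.pi)) := by
      linarith
    nlinarith
  have k0 : 1 ≤ Real.tan (dd X s) :=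
    Ac_alg t0 t1 t2 hrp hmp hq3 htan hper s1
  have k1 : 1 ≤ Real.tan (dd X (s + 2 * Real.pi)) := by
    refine Ac_alg t1 t2 t0 hrp hmp hq3 ?_ ?_ s2
    · linarith
    · linarith
  have k2 : 1 ≤ Real.tan (dd X (s + 4 * Real.pi)) := by
    refine Ac_alg t2 t0 t1 hrp hmp hq3 ?_ ?_ s0
    · linarith
    · linarith
  have key : ∀ d : ℝ, 0 < d → d < Real.pi / 2 → 1 ≤ Real.tan d → 2 / Real.pi * (Real.pi - 2 * d) ≤ Real.sin (2 * d) := by
    intro d h0 h1 h2
    have h3 : Real.pi / 4 ≤ d := by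
      by_contra hc
      push Not at hc
      have h4 := Real.tan_lt_tan_of_lt_of_lt_pi_div_two (by linarith [Real.pi_pos] : -(Real.pi / 2) < d)
        (by linarith [Real.pi_pos] : Real.pi / 4 < Real.pi / 2) hc
      rw [Real.tan_pi_div_four] at h4
      linarith
    have h4 := Real.mul_le_sin (x := Real.pi - 2 * d) (by linarith) (by linarith)
    rwa [Real.sin_pi_sub] at h4
  have j0 := key _ a0 b0 k0
  have j1 := key _ a1 b1 k1
  have j2 := key _ a2 b2 k2
  have hpi := Real.pi_pos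
  have e : 2 / Real.pi * (Real.pi - 2 * dd X s) + 2 / Real.pi * (Real.pi - 2 * dd X (s + 2 * Real.pi))
      + 2 / Real.pi * (Real.pi - 2 * dd X (s + 4 * Real.pi)) = 2 := by
    have e1 : 2 / Real.pi * (Real.pi - 2 * dd X s) + 2 / Real.pi * (Real.pi - 2 * dd X (s + 2 * Real.pi))
      + 2 / Real.pi * (Real.pi - 2 * dd X (s + 4 * Real.pi)) = 2 / Real.pi * (3 * Real.pi - 2 * (dd X s
        + dd X (s + 2 * Real.pi) + dd X (s + 4 * Real.pi))) := by ring
    rw [e1, hsum]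
    field_simp
    ring
  linarith

end Pool.Agent.H1.BS
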