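/-
ROW Hb.  The Hopf inequality between two circles, test field 1.
PROOF.  Copy of Pool/Agent/H1/BP/Hop.lean (theorem hopf) with b11 q = Sxx h q.1 q.2, b12 q = 2 * R h q.1 q.2, b22 q = Syy h q.1 q.2 (the case nu0 = nu1 = 1) and HJ f replaced by
  HB G := HJ f2 G - HJ f G  (HJ, HOm, HT, HJ_sum, HJ_add, HJ_smul, HT_inv, hop_orbit, hchi.. are public there).
HT_inv holds for both circles, so HB (phi o HT^n * R) = HB (phi * R) for phi continuous on HOm f2 (HOm f ⊆ HOm f2 since f x <= f2 x) and diagonally periodic.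
Nonpositivity: if G <= 0 on {f x <= y <= f2 x} then HB G <= 0: int_x^{f2 x} - int_x^{f x} = int_{f x}^{f2 x} <= 0 (integral_interval_sub_left or
intervalIntegral.integral_add_adjacent_intervals), then integrate in x.
`point`: for f x <= y <= f2 x take F = f (y = f x), F = f2 (y = f2 x) or hfill; JN_le for F with xi i = hchi M i.
-/
import Pool.Agent.H1.BS.Defs
import Pool.Agent.H1.BP.Hop

set_option autoImplicit false

namespace Pool.Agent.H1.BS

open Pool.Agent.H1.BP MeasureTheory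

variable {h : ℝ → ℝ}

private theorem Hb_nonpos {f f2 : ℝ → ℝ} (hf : Continuous f) (hf2 : Continuous f2)
    (hlo : ∀ x, x ≤ f x) (hlt : ∀ x, f x < f2 x) {G : ℝ × ℝ → ℝ}
    (hc : ContinuousOn G (HOm f2)) (hG : ∀ x y, f x ≤ y → y ≤ f2 x → G (x, y) ≤ 0) :
    HJ f2 G - HJ f G ≤ 0 := by
  have hsub : HOm f ⊆ HOm f2 := fun q hq => ⟨hq.1, hq.2.trans (hlt q.1).le⟩
  have hlo2 : ∀ x, x ≤ f2 x := fun x => (hlo x).trans (hlt x).le
  have hpi : (0 : ℝ) ≤ 2 * Real.pi := by positivity
  have i2 := hop_inner_cont hf2 hlo2 hc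
  have i1 := hop_inner_cont hf hlo (hc.mono hsub)
  have key : ∀ x, (∫ y in x..(f2 x), G (x, y)) - (∫ y in x..(f x), G (x, y)) ≤ 0 := by
    intro x
    rw [intervalIntegral.integral_interval_sub_left (hop_slice hlo2 hc x)
      (hop_slice hlo (hc.mono hsub) x)]
    have := intervalIntegral.integral_nonneg (f := fun y => - G (x, y)) (μ := volume) (hlt x).le
      (fun y hy => neg_nonneg.mpr (hG x y hy.1 hy.2))
    rw [intervalIntegral.integral_neg] at this
    linarith
  unfold HJ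
  rw [← intervalIntegral.integral_sub (i2.intervalIntegrable _ _) (i1.intervalIntegrable _ _)]
  have := intervalIntegral.integral_nonneg
    (f := fun x => - ((∫ y in x..(f2 x), G (x, y)) - (∫ y in x..(f x), G (x, y)))) (μ := volume)
    hpi (fun x _ => neg_nonneg.mpr (key x))
  rw [intervalIntegral.integral_neg] at this
  linarith

theorem hopf_between (hs : Supp h) {f f2 : ℝ → ℝ} (hf : Circle h f) (hf2 : Circle h f2) (hlt : ∀ x, f x < f2 x)
    (hfill : ∀ x y, f x < y → y < f2 x → ∃ F, Circle h F ∧ F x = y) :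
    (∫ x in (0 : ℝ)..(2 * Real.pi), ∫ y in x..(f2 x), G1 h x y)
      - (∫ x in (0 : ℝ)..(2 * Real.pi), ∫ y in x..(f x), G1 h x y) ≤ 0 := by
  have hlo : ∀ x, x ≤ f x := fun x => (hf.lo x).le
  have hlo2 : ∀ x, x ≤ f2 x := fun x => (hf2.lo x).le
  have hsub : HOm f ⊆ HOm f2 := fun q hq => ⟨hq.1, hq.2.trans (hlt q.1).le⟩
  set b11 : ℝ × ℝ → ℝ := fun q => Sxx h q.1 q.2 with hb11
  set b12 : ℝ × ℝ → ℝ := fun q => 2 * R h q.1 q.2 with hb12
  set b22 : ℝ × ℝ → ℝ := fun q => Syy h q.1 q.2 with hb22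
  have cR : Continuous (fun z : ℝ × ℝ => R h z.1 z.2) := R_c hs
  have cXX : Continuous (fun z : ℝ × ℝ => Sxx h z.1 z.2) := Sxx_c hs
  have cYY : Continuous (fun z : ℝ × ℝ => Syy h z.1 z.2) := Syy_c hs
  have c11 : Continuous b11 := cXX
  have c12 : Continuous b12 := continuous_const.mul cR
  have c22 : Continuous b22 := cYY
  have p11 : ∀ g : ℝ → ℝ, ∀ q ∈ HOm g, b11 (q.1 + 2 * Real.pi, q.2 + 2 * Real.pi) = b11 q := by
    intro g q _
    simp only [hb11, Sxx_per hs]
  have p12 : ∀ g : ℝ → ℝ, ∀ q ∈ HOm g, b12 (q.1 + 2 * Real.pi, q.2 + 2 * Real.pi) = b12 q := by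
    intro g q _
    simp only [hb12, R_per hs]
  have p22 : ∀ g : ℝ → ℝ, ∀ q ∈ HOm g, b22 (q.1 + 2 * Real.pi, q.2 + 2 * Real.pi) = b22 q := by
    intro g q _
    simp only [hb22, Syy_per hs]
  set A11 := HJ f2 (fun q => b11 q * R h q.1 q.2) with hA11
  set A12 := HJ f2 (fun q => b12 q * R h q.1 q.2) with hA12
  set A22 := HJ f2 (fun q => b22 q * R h q.1 q.2) with hA22
  set B11 := HJ f (fun q => b11 q * R h q.1 q.2) with hB11
  set B12 := HJ f (fun q => b12 q * R h q.1 q.2) with hB12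
  set B22 := HJ f (fun q => b22 q * R h q.1 q.2) with hB22
  have m11 : Continuous (fun q : ℝ × ℝ => b11 q * R h q.1 q.2) := c11.mul cR
  have m12 : Continuous (fun q : ℝ × ℝ => b12 q * R h q.1 q.2) := c12.mul cR
  have m22 : Continuous (fun q : ℝ × ℝ => b22 q * R h q.1 q.2) := c22.mul cR
  have eQ : ∀ g : ℝ → ℝ, Continuous g → (∀ x, x ≤ g x) →
      (∫ x in (0 : ℝ)..(2 * Real.pi), ∫ y in x..(g x), G1 h x y)
        = HJ g (fun q => b11 q * R h q.1 q.2) + HJ g (fun q => b12 q * R h q.1 q.2)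
          + HJ g (fun q => b22 q * R h q.1 q.2) := by
    intro g hg hglo
    have e : (∫ x in (0 : ℝ)..(2 * Real.pi), ∫ y in x..(g x), G1 h x y)
        = HJ g (fun q => (b11 q * R h q.1 q.2 + b12 q * R h q.1 q.2) + b22 q * R h q.1 q.2) := by
      unfold HJ
      apply intervalIntegral.integral_congr
      intro x _
      apply intervalIntegral.integral_congr
      intro y _
      simp only [hb11, hb12, hb22, G1]
      ring
    rw [e, HJ_add hg hglo (fun q => b11 q * R h q.1 q.2 + b12 q * R h q.1 q.2)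
      (fun q => b22 q * R h q.1 q.2) (m11.add m12).continuousOn m22.continuousOn,
      HJ_add hg hglo (fun q => b11 q * R h q.1 q.2)
      (fun q => b12 q * R h q.1 q.2) m11.continuousOn m12.continuousOn]
  -- the pointwise inequality
  have point : ∀ M : ℕ, ∀ x y, f x ≤ y → y ≤ f2 x → ∑ i ∈ Finset.range (M + 2),
      ((hchi M i * (b11 ((HT h)^[i] (x, y)) * R h x y)
        + hchi M i * hchi M (i + 1) * (b12 ((HT h)^[i] (x, y)) * R h x y))
        + hchi M (i + 1) * (b22 ((HT h)^[i] (x, y)) * R h x y)) ≤ 0 := by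
    intro M x y h1 h2
    have hxy : x < y := (hf.lo x).trans_le h1
    have hF : ∃ F, Circle h F ∧ F x = y := by
      rcases eq_or_lt_of_le h1 with he | hlt1
      · exact ⟨f, hf, he⟩
      · rcases eq_or_lt_of_le h2 with he2 | hlt2
        · exact ⟨f2, hf2, he2.symm⟩
        · exact hfill x y hlt1 hlt2
    obtain ⟨F, hF, hFx⟩ := hF
    have hR : 0 ≤ R h x y := R_nonneg hs hxy.le (h2.trans (hf2.hi x).le)
    have hj := JN_le hs hF x (M + 2) (fun i => hchi M i)
      (by
        have : hchi M 0 = 0 := by unfold hchi; rw [if_neg (by omega)]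
        simp only [this])
      (by
        have : hchi M (M + 2) = 0 := by unfold hchi; rw [if_neg (by omega)]
        simp only [this])
    have hmul := mul_nonpos_of_nonpos_of_nonneg hj hR
    rw [Finset.sum_mul] at hmul
    refine le_of_eq_of_le (Finset.sum_congr rfl ?_) hmul
    intro i _
    have hT : (HT h)^[i] (x, y) = (F^[i] x, F^[i + 1] x) := by
      rw [← hFx]; exact hop_orbit hs hF x i
    rw [hT]
    simp only [hb11, hb12, hb22]
    have s1 := hchi_sq M i
    have s2 := hchi_sq M (i + 1)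
    calc _ = (Sxx h (F^[i] x) (F^[i + 1] x) * hchi M i
          + 2 * R h (F^[i] x) (F^[i + 1] x) * hchi M i * hchi M (i + 1)
          + Syy h (F^[i] x) (F^[i + 1] x) * hchi M (i + 1)) * R h x y := by ring
      _ = _ := by
        rw [s1, s2]
  -- integrated inequality
  have integ : ∀ M : ℕ, ((M : ℝ) + 1) * (A11 - B11) + M * (A12 - B12)
      + ((M : ℝ) + 1) * (A22 - B22) ≤ 0 := by
    intro M
    have main : ∀ g : ℝ → ℝ, Circle h g → (∀ x, x ≤ g x) →
        ContinuousOn (fun q => ∑ i ∈ Finset.range (M + 2),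
          ((hchi M i * (b11 ((HT h)^[i] q) * R h q.1 q.2)
          + hchi M i * hchi M (i + 1) * (b12 ((HT h)^[i] q) * R h q.1 q.2))
          + hchi M (i + 1) * (b22 ((HT h)^[i] q) * R h q.1 q.2))) (HOm g) ∧
        HJ g (fun q => ∑ i ∈ Finset.range (M + 2),
          ((hchi M i * (b11 ((HT h)^[i] q) * R h q.1 q.2)
          + hchi M i * hchi M (i + 1) * (b12 ((HT h)^[i] q) * R h q.1 q.2))
          + hchi M (i + 1) * (b22 ((HT h)^[i] q) * R h q.1 q.2)))
        = ((M : ℝ) + 1) * HJ g (fun q => b11 q * R h q.1 q.2)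
          + M * HJ g (fun q => b12 q * R h q.1 q.2)
          + ((M : ℝ) + 1) * HJ g (fun q => b22 q * R h q.1 q.2) := by
      intro g hg hglo
      have k11 := fun i => HT_inv hs hg i b11 c11.continuousOn (p11 g)
      have k12 := fun i => HT_inv hs hg i b12 c12.continuousOn (p12 g)
      have k22 := fun i => HT_inv hs hg i b22 c22.continuousOn (p22 g)
      have d11 : ∀ i, ContinuousOn (fun q => hchi M i * (b11 ((HT h)^[i] q) * R h q.1 q.2)) (HOm g) :=
        fun i => continuousOn_const.mul ((k11 i).1.mul cR.continuousOn)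
      have d12 : ∀ i, ContinuousOn
          (fun q => hchi M i * hchi M (i + 1) * (b12 ((HT h)^[i] q) * R h q.1 q.2)) (HOm g) :=
        fun i => continuousOn_const.mul ((k12 i).1.mul cR.continuousOn)
      have d22 : ∀ i, ContinuousOn
          (fun q => hchi M (i + 1) * (b22 ((HT h)^[i] q) * R h q.1 q.2)) (HOm g) :=
        fun i => continuousOn_const.mul ((k22 i).1.mul cR.continuousOn)
      have d1 : ∀ i, ContinuousOn (fun q => hchi M i * (b11 ((HT h)^[i] q) * R h q.1 q.2)
          + hchi M i * hchi M (i + 1) * (b12 ((HT h)^[i] q) * R h q.1 q.2)) (HOm g) :=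
        fun i => (d11 i).add (d12 i)
      have d0 : ∀ i, ContinuousOn (fun q => (hchi M i * (b11 ((HT h)^[i] q) * R h q.1 q.2)
          + hchi M i * hchi M (i + 1) * (b12 ((HT h)^[i] q) * R h q.1 q.2))
          + hchi M (i + 1) * (b22 ((HT h)^[i] q) * R h q.1 q.2)) (HOm g) :=
        fun i => (d1 i).add (d22 i)
      refine ⟨continuousOn_finsetSum _ fun i _ => d0 i, ?_⟩
      rw [HJ_sum hg.cont hglo (M + 2) (fun i q => (hchi M i * (b11 ((HT h)^[i] q) * R h q.1 q.2)
          + hchi M i * hchi M (i + 1) * (b12 ((HT h)^[i] q) * R h q.1 q.2))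
          + hchi M (i + 1) * (b22 ((HT h)^[i] q) * R h q.1 q.2)) d0]
      have e : ∀ i ∈ Finset.range (M + 2), HJ g (fun q =>
          (hchi M i * (b11 ((HT h)^[i] q) * R h q.1 q.2)
          + hchi M i * hchi M (i + 1) * (b12 ((HT h)^[i] q) * R h q.1 q.2))
          + hchi M (i + 1) * (b22 ((HT h)^[i] q) * R h q.1 q.2))
          = hchi M i * HJ g (fun q => b11 q * R h q.1 q.2)
            + hchi M i * hchi M (i + 1) * HJ g (fun q => b12 q * R h q.1 q.2)
            + hchi M (i + 1) * HJ g (fun q => b22 q * R h q.1 q.2) := by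
        intro i _
        rw [HJ_add hg.cont hglo (fun q => hchi M i * (b11 ((HT h)^[i] q) * R h q.1 q.2)
          + hchi M i * hchi M (i + 1) * (b12 ((HT h)^[i] q) * R h q.1 q.2))
          (fun q => hchi M (i + 1) * (b22 ((HT h)^[i] q) * R h q.1 q.2)) (d1 i) (d22 i),
          HJ_add hg.cont hglo (fun q => hchi M i * (b11 ((HT h)^[i] q) * R h q.1 q.2))
          (fun q => hchi M i * hchi M (i + 1) * (b12 ((HT h)^[i] q) * R h q.1 q.2)) (d11 i) (d12 i),
          HJ_smul, HJ_smul, HJ_smul, (k11 i).2.2, (k12 i).2.2, (k22 i).2.2]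
      rw [Finset.sum_congr rfl e, Finset.sum_add_distrib, Finset.sum_add_distrib,
        ← Finset.sum_mul, ← Finset.sum_mul, ← Finset.sum_mul, hchi_sum, hchi_sum1, hchi_sum2]
    have hle := Hb_nonpos hf.cont hf2.cont hlo hlt (main f2 hf2 hlo2).1 (point M)
    rw [(main f2 hf2 hlo2).2, (main f hf hlo).2] at hle
    rw [hA11, hA12, hA22, hB11, hB12, hB22]
    linarith
  rw [eQ f2 hf2.cont hlo2, eQ f hf.cont hlo, ← hA11, ← hA12, ← hA22, ← hB11, ← hB12, ← hB22]
  by_contra hpos
  push Not at hpos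
  have hpos' : 0 < (A11 - B11) + (A12 - B12) + (A22 - B22) := by linarith
  obtain ⟨M, hM⟩ := exists_nat_gt
    ((|A11 - B11| + |A22 - B22|) / ((A11 - B11) + (A12 - B12) + (A22 - B22)))
  rw [div_lt_iff₀ hpos'] at hM
  have h1 := integ M
  have h2 : -|A11 - B11| ≤ A11 - B11 := neg_abs_le _
  have h3 : -|A22 - B22| ≤ A22 - B22 := neg_abs_le _
  nlinarith

end Pool.Agent.H1.BS
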