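/-
ROW Rg.  The integral of the density over the region below a circle.
PROOF.  swap_pd (BP/Swp) with H = G1 h (continuous: Sxx_c, R_c, Syy_c; diagonally periodic: Sxx_per, R_per, Syy_per) and the given D gives int_s int_{d in 0..D s} 2 * G1 h (s-d) (s+d).
Unfold: (s-d+s+d)/2 = s, ((s+d)-(s-d))/2 = d; 2 * G1 h (s-d) (s+d) = 2 h''(s) (h s + h'' s) sin^2 d = wt h s * (2 sin^2 d)   [Sxx + 2R + Syy = 2 h'' sin d, R = (h+h'') sin d / 2].
int_0^D 2 sin^2 d = D - sin (2D)/2 (integral_eq_sub_of_hasDerivAt with primitive d - sin (2d)/2; cos (2d) = 1 - 2 sin^2 d).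
-/
import Pool.Agent.H1.BS.Defs
import Pool.Agent.H1.BP.Swp
import Pool.Agent.H1.BP.Hop

set_option autoImplicit false

namespace Pool.Agent.H1.BS

open Pool.Agent.H1.BP MeasureTheory

variable {h : ℝ → ℝ}

private theorem rg_sin (D : ℝ) :
    ∫ d in (0 : ℝ)..D, 2 * Real.sin d ^ 2 = D - Real.sin (2 * D) / 2 := by
  have hder : ∀ x ∈ Set.uIcc (0 : ℝ) D,
      HasDerivAt (fun d : ℝ => d - Real.sin (2 * d) / 2) (2 * Real.sin x ^ 2) x := by
    intro x _
    have h1 : HasDerivAt (fun d : ℝ => 2 * d) 2 x := by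
      have := (hasDerivAt_id x).const_mul (2 : ℝ)
      simpa using this
    have h2 : HasDerivAt (fun d : ℝ => Real.sin (2 * d)) (Real.cos (2 * x) * 2) x :=
      (Real.hasDerivAt_sin (2 * x)).comp x h1
    have h3 := (hasDerivAt_id x).sub (h2.div_const 2)
    have e : (1 : ℝ) - Real.cos (2 * x) * 2 / 2 = 2 * Real.sin x ^ 2 := by
      have := Real.cos_sq' x
      rw [Real.cos_two_mul, this]
      ring
    rw [e] at h3
    exact h3
  have hint : IntervalIntegrable (fun d : ℝ => 2 * Real.sin d ^ 2) volume 0 D :=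
    (by fun_prop : Continuous (fun d : ℝ => 2 * Real.sin d ^ 2)).intervalIntegrable _ _
  have := intervalIntegral.integral_eq_sub_of_hasDerivAt hder hint
  rw [this]
  simp

private theorem rg_G (s d : ℝ) :
    2 * G1 h (s - d) (s + d) = wt h s * (2 * Real.sin d ^ 2) := by
  have e1 : (s - d + (s + d)) / 2 = s := by ring
  have e2 : (s + d - (s - d)) / 2 = d := by ring
  unfold G1 wt Sxx Syy R
  rw [e1, e2]
  ring

theorem ring_int (hs : Supp h) {f : ℝ → ℝ} (hf : Circle h f) (D : ℝ → ℝ) (hD0 : ∀ s, 0 ≤ D s)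
    (hD : ∀ s, f (s - D s) = s + D s) :
    ∫ x in (0 : ℝ)..(2 * Real.pi), ∫ y in x..(f x), G1 h x y
      = ∫ s in (0 : ℝ)..(2 * Real.pi), wt h s * (D s - Real.sin (2 * D s) / 2) := by
  have hc : Continuous (Function.uncurry (G1 h)) := by
    have e : Function.uncurry (G1 h)
        = fun z : ℝ × ℝ => (Sxx h z.1 z.2 + 2 * R h z.1 z.2 + Syy h z.1 z.2) * R h z.1 z.2 := by
      funext z
      rfl
    rw [e]
    exact (((Sxx_c hs).add (continuous_const.mul (R_c hs))).add (Syy_c hs)).mul (R_c hs)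
  have hp : ∀ x y, x ≤ y → y ≤ f x → G1 h (x + 2 * Real.pi) (y + 2 * Real.pi) = G1 h x y := by
    intro x y _ _
    unfold G1
    rw [Sxx_per hs, R_per hs, Syy_per hs]
  rw [swap_pd f D hf.cont hf.mono hf.per (fun x => (hf.lo x).le) (fun x => (hf.hi x).le) hD0 hD
    (G1 h) hc.continuousOn hp]
  apply intervalIntegral.integral_congr
  intro s _
  show ∫ d in (0 : ℝ)..(D s), 2 * G1 h (s - d) (s + d) = wt h s * (D s - Real.sin (2 * D s) / 2)
  have e : (fun d : ℝ => 2 * G1 h (s - d) (s + d)) = fun d => wt h s * (2 * Real.sin d ^ 2) := by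
    funext d
    exact rg_G s d
  rw [e, intervalIntegral.integral_const_mul, rg_sin]

end Pool.Agent.H1.BS
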