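/-
ROW Cv.  The Hopf inequality in the parameter s of the 3-periodic circle.
PROOF.  hopf_between (f x < x + pi = f2 x by circle_gap, BP/Ang), ring_int for f2 with D = pi/2 (sin (2 (pi/2)) = 0) and for f with D t = dd X (e.symm t), e = ps X as order isomorphism
(exactly as in idB, BP/IdB.lean: e, heper; t - D t = X (e.symm t), t + D t = X (e.symm t + 2 pi) = f (X ..); D t > 0 since X is strictly increasing (hX.pos)).  So
  int_0^{2pi} wt h t * (pi/2 - D t + sin (2 D t)/2) dt <= 0, i.e. (1/2) int_0^{2pi} wt h t * cf (D t) <= 0   (subtract the two integrals: both integrands continuous).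
The integrand is 2pi-periodic; int_0^{2pi} = int_{ps 0}^{ps (6pi)} (Function.Periodic.intervalIntegral_add_eq; ps (6pi) = ps 0 + 2pi) = int_0^{6pi} wt h (ps s) * cf (dd s) * ps' s ds
(intervalIntegral.integral_comp_mul_deriv), as in idB.
-/
import Pool.Agent.H1.BS.Hb
import Pool.Agent.H1.BS.Rg
import Pool.Agent.H1.BP.IdB
import Pool.Agent.H1.BP.Ang

set_option autoImplicit false

namespace Pool.Agent.H1.BS

open Pool.Agent.H1.BP MeasureTheory

variable {h : ℝ → ℝ}

theorem hopf_s (hs : Supp h) {f : ℝ → ℝ} (hf : Circle h f) (h3 : ∀ x, f (f (f x)) = x + 2 * Real.pi)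
    {X : ℝ → ℝ} (hX : Tri X) (hXf : ∀ s, X (s + 2 * Real.pi) = f (X s))
    {f2 : ℝ → ℝ} (hf2 : Circle h f2) (hf2' : ∀ x, f2 x = x + Real.pi)
    (hfill : ∀ x y, f x < y → y < f2 x → ∃ F, Circle h F ∧ F x = y) :
    ∫ s in (0 : ℝ)..(6 * Real.pi), cf (dd X s) * wt h (ps X s) * deriv (ps X) s ≤ 0 := by
  have hpi := Real.pi_pos
  have hpc : Continuous (ps X) :=
    continuous_iff_continuousAt.2 (fun s => (IdB_ps hX s).continuousAt)
  have hdc : Continuous (dd X) :=
    continuous_iff_continuousAt.2 (fun s => (IdB_dd hX s).continuousAt)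
  have hXc := IdB_Xc hX
  obtain ⟨e, he⟩ : ∃ e : ℝ ≃o ℝ, ∀ s, e s = ps X s :=
    ⟨(IdB_psmono hX).orderIsoOfSurjective _ (IdB_pssurj hX), fun s => rfl⟩
  have he1 : ∀ s, e.symm (ps X s) = s := fun s => by rw [← he, OrderIso.symm_apply_apply]
  have he2 : ∀ t, ps X (e.symm t) = t := fun t => by rw [← he, OrderIso.apply_symm_apply]
  have hec : Continuous e.symm := e.symm.continuous
  have heper : ∀ t, e.symm (t + 2 * Real.pi) = e.symm t + 6 * Real.pi := by
    intro t
    have h1 : ps X (e.symm t + 6 * Real.pi) = t + 2 * Real.pi := by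
      rw [IdB_psper hX, he2]
    rw [← h1, he1]
  have hXm : StrictMono X := strictMono_of_deriv_pos hX.pos
  have hD0 : ∀ t, 0 ≤ dd X (e.symm t) := by
    intro t
    unfold dd
    have h1 := hXm (show e.symm t < e.symm t + 2 * Real.pi by linarith)
    linarith
  have hD : ∀ t, f (t - dd X (e.symm t)) = t + dd X (e.symm t) := by
    intro t
    have h1 : t - dd X (e.symm t) = X (e.symm t) := by
      have h2 := he2 t
      unfold ps at h2
      unfold dd
      linarith
    have h3 : t + dd X (e.symm t) = X (e.symm t + 2 * Real.pi) := by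
      have h2 := he2 t
      unfold ps at h2
      unfold dd
      linarith
    rw [h1, h3, hXf]
  have hlt : ∀ x, f x < f2 x := fun x => by rw [hf2']; exact circle_gap hs hf h3 x
  have H := hopf_between hs hf hf2 hlt hfill
  rw [ring_int hs hf2 (fun _ => Real.pi / 2) (fun _ => by positivity)
      (fun s => by rw [hf2']; ring),
    ring_int hs hf (fun t => dd X (e.symm t)) hD0 hD] at H
  have hh0 : Continuous h := c0 hs
  have hh2 : Continuous (deriv (deriv h)) := c2 hs
  have hwc : Continuous (wt h) := by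
    unfold wt
    fun_prop
  have hcc : Continuous cf := by
    unfold cf
    fun_prop
  have hdec : Continuous (fun t => dd X (e.symm t)) := hdc.comp hec
  have i1 : Continuous (fun t => wt h t * (Real.pi / 2 - Real.sin (2 * (Real.pi / 2)) / 2)) := by
    fun_prop
  have i2 : Continuous (fun t => wt h t * (dd X (e.symm t) - Real.sin (2 * dd X (e.symm t)) / 2)) := by
    fun_prop
  rw [← intervalIntegral.integral_sub (i1.intervalIntegrable _ _) (i2.intervalIntegrable _ _)] at H
  obtain ⟨G, hG⟩ : ∃ G : ℝ → ℝ, G = fun t => cf (dd X (e.symm t)) * wt h t := ⟨_, rfl⟩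
  have hGc : Continuous G := by
    rw [hG]
    exact (hcc.comp hdec).mul hwc
  have hwp : ∀ t, wt h (t + 2 * Real.pi) = wt h t := by
    intro t
    unfold wt
    rw [d2_per hs, hs.per]
  have hGp : Function.Periodic G (2 * Real.pi) := by
    intro t
    rw [hG]
    show cf (dd X (e.symm (t + 2 * Real.pi))) * wt h (t + 2 * Real.pi)
      = cf (dd X (e.symm t)) * wt h t
    rw [heper, IdB_ddper hX, hwp]
  have hH : ∫ t in (0 : ℝ)..(2 * Real.pi), G t ≤ 0 := by
    have e0 : ∀ t, wt h t * (Real.pi / 2 - Real.sin (2 * (Real.pi / 2)) / 2)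
        - wt h t * (dd X (e.symm t) - Real.sin (2 * dd X (e.symm t)) / 2) = 1 / 2 * G t := by
      intro t
      rw [hG]
      have hsin : Real.sin (2 * (Real.pi / 2)) = 0 := by
        rw [show 2 * (Real.pi / 2) = Real.pi by ring, Real.sin_pi]
      rw [hsin]
      unfold cf
      ring
    simp only [e0] at H
    rw [intervalIntegral.integral_const_mul] at H
    linarith
  have e1 : ∫ t in (0 : ℝ)..(2 * Real.pi), G t
      = ∫ s in (0 : ℝ)..(6 * Real.pi), G (ps X s) * ((deriv X (s + 2 * Real.pi) + deriv X s) / 2) := by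
    have h2 := hGp.intervalIntegral_add_eq 0 (ps X 0)
    rw [zero_add] at h2
    have h3 : ps X 0 + 2 * Real.pi = ps X (6 * Real.pi) := by
      rw [← IdB_psper hX, zero_add]
    have h4 := intervalIntegral.integral_comp_mul_deriv (a := 0) (b := 6 * Real.pi) (f := ps X)
      (f' := fun s => (deriv X (s + 2 * Real.pi) + deriv X s) / 2) (g := G)
      (fun x _ => IdB_ps hX x) (by fun_prop) hGc
    rw [h2, h3, ← h4]
    rfl
  have e2 : ∀ s, cf (dd X s) * wt h (ps X s) * deriv (ps X) s
      = G (ps X s) * ((deriv X (s + 2 * Real.pi) + deriv X s) / 2) := by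
    intro s
    rw [(IdB_ps hX s).deriv, hG]
    show _ = cf (dd X (e.symm (ps X s))) * wt h (ps X s) * _
    rw [he1]
  simp only [e2]
  rw [← e1]
  exact hH

end Pool.Agent.H1.BS
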