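/-
ROW Idp.  The pointwise identity (section 3 of UP3_85545d_h1.md).
NOTATION at s and k = 0,1,2 (s_k = s + 2 pi k): d = dd X s_k, a = ps X s_k, w = deriv (ps X) s_k = a', T = h' a = qt q a, N = qn q a, rho = h a - N, r = rr (the same for k=0,1,2), b = pi - 2d,
 sig = sin 2d, c = b + sig, q' = deriv q s, Pn = qn q' a, Pt = qt q' a.   (q and q' are 2pi-periodic.)
 Derivatives in s:  T' = h'' a * w = Pt - w N  (two expressions; the second from T = qt (q s) (a s));  (h a)' = T w;  N' = Pn + w T;  so rho' = -Pn.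
 r' = cos d rho' - sin d d' rho = - cos d Pn - sin d d' rho (for each k the same number r');   r = cos d rho.
 F = b rho T:  F' = -2 d' rho T - b Pn T + b rho T'.
 For each k:  cf*wt*w - cf*Pt^2/w = c [ h''(h+h'') w - Pt^2/w ] and h'' w = Pt - wN, (h+h'') w = w (N+rho) + Pt - w N = w rho + Pt, so h''(h+h'')w = (Pt - wN)(w rho + Pt)/w =
   Pt^2/w + rho T' - N Pt   (T' = Pt - wN).   Hence term_k = c (rho T' - N Pt).
 To show:  sum F' = sum c (rho T' - N Pt) + pi * cr q q'.   cr q q' = q x q' = N Pt - T Pn for each k (rotation), sum b = pi, so pi cr q q' = sum b (N Pt - T Pn).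
   Difference: sum [ sig (rho T' - N Pt) + 2 d' rho T ] = 0.   sig rho = 2 sin d r.  sum sin d T = 0 (hT), differentiate: sum (sin d T' + cos d d' T) = 0.
   2 r sum sin d T' = -2 r sum cos d d' T = - sum 2 cos^2 d rho d' T;  2 d' rho T (1 - cos^2 d) = 2 sin d T (sin d d' rho) = 2 sin d T (-r' - cos d Pn) = -2 r' sin d T - sig T Pn.
   So the sum is - 2 r' sum sin d T - sum sig (T Pn + N Pt) = - sum sig (T Pn + N Pt) = 0:  T Pn + N Pt is a combination of cos 2a, sin 2a with coefficients depending on q, q' only: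
   qt q a * qn q' a + qn q a * qt q' a = (q.re q'.im + q.im q'.re) cos 2a + (q.im q'.im - q.re q'.re) sin 2a, and sum sig cos 2a = sum sig sin 2a = 0 (sum_sin, BP/Zet).
 Suggestion: prove the algebraic identity as a separate lemma over the reals (linear_combination), derivative facts as separate lemmas (IdB_ps, IdB_dd in BP/IdB).
-/
import Pool.Agent.H1.BS.Defs
import Pool.Agent.H1.BP.IdB
import Pool.Agent.H1.BP.Zet

set_option autoImplicit false

namespace Pool.Agent.H1.BS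

open Pool.Agent.H1.BP

variable {h : ℝ → ℝ}

private theorem Idp_alg {K r r' : ℝ} {s0 c0 p0 T0 N0 Pn0 Pt0 D0 e0 b0 : ℝ}
    {s1 c1 p1 T1 N1 Pn1 Pt1 D1 e1 b1 : ℝ} {s2 c2 p2 T2 N2 Pn2 Pt2 D2 e2 b2 P : ℝ}
    (hb : b0 + b1 + b2 = P)
    (k0 : K = N0 * Pt0 - T0 * Pn0) (k1 : K = N1 * Pt1 - T1 * Pn1) (k2 : K = N2 * Pt2 - T2 * Pn2)
    (r0 : c0 * p0 = r) (r1 : c1 * p1 = r) (r2 : c2 * p2 = r)
    (q0 : -s0 * e0 * p0 - c0 * Pn0 = r') (q1 : -s1 * e1 * p1 - c1 * Pn1 = r')
    (q2 : -s2 * e2 * p2 - c2 * Pn2 = r')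
    (hT : s0 * T0 + s1 * T1 + s2 * T2 = 0)
    (hD : (c0 * e0 * T0 + s0 * D0) + (c1 * e1 * T1 + s1 * D1) + (c2 * e2 * T2 + s2 * D2) = 0)
    (hZ : 2 * s0 * c0 * (T0 * Pn0 + N0 * Pt0) + 2 * s1 * c1 * (T1 * Pn1 + N1 * Pt1)
      + 2 * s2 * c2 * (T2 * Pn2 + N2 * Pt2) = 0)
    (i0 : s0 ^ 2 + c0 ^ 2 = 1) (i1 : s1 ^ 2 + c1 ^ 2 = 1) (i2 : s2 ^ 2 + c2 ^ 2 = 1) :
    (-2 * e0 * p0 * T0 + b0 * (-Pn0) * T0 + b0 * p0 * D0)
      + (-2 * e1 * p1 * T1 + b1 * (-Pn1) * T1 + b1 * p1 * D1)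
      + (-2 * e2 * p2 * T2 + b2 * (-Pn2) * T2 + b2 * p2 * D2)
    = (b0 + 2 * s0 * c0) * (p0 * D0 - N0 * Pt0) + (b1 + 2 * s1 * c1) * (p1 * D1 - N1 * Pt1)
      + (b2 + 2 * s2 * c2) * (p2 * D2 - N2 * Pt2) + P * K := by
  linear_combination K * hb - b0 * k0 - b1 * k1 - b2 * k2
    - 2 * s0 * D0 * r0 - 2 * s1 * D1 * r1 - 2 * s2 * D2 * r2 - 2 * r * hD
    - 2 * c0 * e0 * T0 * r0 - 2 * c1 * e1 * T1 * r1 - 2 * c2 * e2 * T2 * r2
    + 2 * e0 * p0 * T0 * i0 + 2 * e1 * p1 * T1 * i1 + 2 * e2 * p2 * T2 * i2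
    + 2 * s0 * T0 * q0 + 2 * s1 * T1 * q1 + 2 * s2 * T2 * q2 + 2 * r' * hT + hZ

private theorem Idp_term {c hh p N Pt w D : ℝ} (hw : w ≠ 0) (h1 : D = Pt - w * N) (h2 : hh * w = D) :
    c * (hh * (p + N + hh)) * w - c * Pt ^ 2 / w = c * (p * D - N * Pt) := by
  have h3 : Pt = w * (hh + N) := by linarith
  subst h3
  subst h2
  field_simp
  ring

/-- derivative of the tangential and of the normal component -/
private theorem Idp_qn {q : ℝ → ℂ} {q' : ℂ} {p : ℝ → ℝ} {p' s : ℝ} (hq : HasDerivAt q q' s)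
    (hp : HasDerivAt p p' s) :
    HasDerivAt (fun s => qn (q s) (p s)) (qn q' (p s) + p' * qt (q s) (p s)) s := by
  have hre : HasDerivAt (fun s => (q s).re) q'.re s := by
    have := (Complex.reCLM.hasFDerivAt (x := q s)).comp_hasDerivAt s hq
    exact this
  have him : HasDerivAt (fun s => (q s).im) q'.im s := by
    have := (Complex.imCLM.hasFDerivAt (x := q s)).comp_hasDerivAt s hq
    exact this
  have h1 := (hre.mul hp.cos).add (him.mul hp.sin)
  refine HasDerivAt.congr_deriv (f := fun s => qn (q s) (p s)) h1 ?_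
  unfold qn qt
  ring

private theorem Idp_qt {q : ℝ → ℂ} {q' : ℂ} {p : ℝ → ℝ} {p' s : ℝ} (hq : HasDerivAt q q' s)
    (hp : HasDerivAt p p' s) :
    HasDerivAt (fun s => qt (q s) (p s)) (qt q' (p s) - p' * qn (q s) (p s)) s := by
  have hre : HasDerivAt (fun s => (q s).re) q'.re s := by
    have := (Complex.reCLM.hasFDerivAt (x := q s)).comp_hasDerivAt s hq
    exact this
  have him : HasDerivAt (fun s => (q s).im) q'.im s := by
    have := (Complex.imCLM.hasFDerivAt (x := q s)).comp_hasDerivAt s hq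
    exact this
  have h1 := (him.mul hp.cos).sub (hre.mul hp.sin)
  refine HasDerivAt.congr_deriv (f := fun s => qt (q s) (p s)) h1 ?_
  unfold qn qt
  ring

/-- half the speed of the opening angle -/
private noncomputable def Idp_e (X : ℝ → ℝ) (s : ℝ) : ℝ := (deriv X (s + 2 * Real.pi) - deriv X s) / 2

section pt

variable (hs : Supp h) {X : ℝ → ℝ} (hX : Tri X) {q : ℝ → ℂ} (hqC : ContDiff ℝ 1 q)
  (hqt : ∀ s, deriv h (ps X s) = qt (q s) (ps X s))

include hX in
private theorem Idp_ps (s : ℝ) : HasDerivAt (ps X) (deriv (ps X) s) s := by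
  have h1 := IdB_ps hX s
  rw [h1.deriv]
  exact h1

include hX in
private theorem Idp_w (s : ℝ) : deriv (ps X) s ≠ 0 := by
  rw [(IdB_ps hX s).deriv]
  have h1 := hX.pos s
  have h2 := hX.pos (s + 2 * Real.pi)
  exact ne_of_gt (by linarith)

include hX in
private theorem Idp_dd (s : ℝ) : HasDerivAt (dd X) (Idp_e X s) s := IdB_dd hX s

include hqC in
private theorem Idp_q (s : ℝ) : HasDerivAt q (deriv q s) s :=
  (hqC.differentiable (by norm_num) s).hasDerivAt

include hs hX in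
private theorem Idp_T (s : ℝ) :
    HasDerivAt (fun s => deriv h (ps X s)) (deriv (deriv h) (ps X s) * deriv (ps X) s) s :=
  (hd1 hs (ps X s)).comp s (Idp_ps hX s)

include hs hX hqC hqt in
private theorem Idp_D (s : ℝ) : deriv (deriv h) (ps X s) * deriv (ps X) s
    = qt (deriv q s) (ps X s) - deriv (ps X) s * qn (q s) (ps X s) := by
  have h1 := Idp_T hs hX s
  have h2 := Idp_qt (Idp_q hqC s) (Idp_ps hX s)
  have h3 : (fun s => deriv h (ps X s)) = fun s => qt (q s) (ps X s) := funext hqt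
  rw [h3] at h1
  exact h1.unique h2

include hs hX hqC hqt in
private theorem Idp_rho (s : ℝ) :
    HasDerivAt (fun s => h (ps X s) - qn (q s) (ps X s)) (-qn (deriv q s) (ps X s)) s := by
  have h1 : HasDerivAt (fun s => h (ps X s)) (deriv h (ps X s) * deriv (ps X) s) s :=
    (hd0 hs (ps X s)).comp s (Idp_ps hX s)
  have h2 := Idp_qn (Idp_q hqC s) (Idp_ps hX s)
  refine HasDerivAt.congr_deriv (h1.sub h2) ?_
  rw [hqt]
  ring

include hs hX hqC hqt in
private theorem Idp_F (s : ℝ) :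
    HasDerivAt (Fb h X q) (-2 * Idp_e X s * (h (ps X s) - qn (q s) (ps X s)) * deriv h (ps X s)
      + (Real.pi - 2 * dd X s) * (-qn (deriv q s) (ps X s)) * deriv h (ps X s)
      + (Real.pi - 2 * dd X s) * (h (ps X s) - qn (q s) (ps X s))
        * (deriv (deriv h) (ps X s) * deriv (ps X) s)) s := by
  have h1 := (((Idp_dd hX s).const_mul 2).const_sub Real.pi).mul (Idp_rho hs hX hqC hqt s)
  have h2 := h1.mul (Idp_T hs hX s)
  refine HasDerivAt.congr_deriv (f := Fb h X q) h2 ?_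
  simp only [Pi.mul_apply]
  ring

include hs hX hqC hqt in
private theorem Idp_r (s : ℝ) :
    HasDerivAt (rr h X q) (-Real.sin (dd X s) * Idp_e X s * (h (ps X s) - qn (q s) (ps X s))
      - Real.cos (dd X s) * qn (deriv q s) (ps X s)) s := by
  have h1 := (Idp_dd hX s).cos.mul (Idp_rho hs hX hqC hqt s)
  refine HasDerivAt.congr_deriv (f := rr h X q) h1 ?_
  ring

include hs hX in
private theorem Idp_sT (s : ℝ) :
    HasDerivAt (fun s => Real.sin (dd X s) * deriv h (ps X s))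
      (Real.cos (dd X s) * Idp_e X s * deriv h (ps X s)
        + Real.sin (dd X s) * (deriv (deriv h) (ps X s) * deriv (ps X) s)) s :=
  (Idp_dd hX s).sin.mul (Idp_T hs hX s)

end pt

private theorem Idp_shift {f : ℝ → ℝ} {f' : ℝ} (s c : ℝ) (hf : HasDerivAt f f' (s + c)) :
    HasDerivAt (fun s => f (s + c)) f' s := by
  have := hf.comp_add_const s c
  exact this

private theorem Idp_cr (q q' : ℂ) (a : ℝ) :
    cr q q' = qn q a * qt q' a - qt q a * qn q' a := by
  unfold cr qn qt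
  linear_combination (-(q.re * q'.im - q.im * q'.re)) * Real.sin_sq_add_cos_sq a

private theorem Idp_mix (q q' : ℂ) (a : ℝ) :
    qt q a * qn q' a + qn q a * qt q' a
      = (q.im * q'.re + q.re * q'.im) * Real.cos (2 * a) + (q.im * q'.im - q.re * q'.re) * Real.sin (2 * a) := by
  unfold qn qt
  rw [Real.cos_two_mul', Real.sin_two_mul]
  ring

private theorem Idp_sumb {X : ℝ → ℝ} (hX : Tri X) (s : ℝ) :
    (Real.pi - 2 * dd X s) + (Real.pi - 2 * dd X (s + 2 * Real.pi)) + (Real.pi - 2 * dd X (s + 4 * Real.pi))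
      = Real.pi := by
  unfold dd
  rw [show s + 2 * Real.pi + 2 * Real.pi = s + 4 * Real.pi by ring,
    show s + 4 * Real.pi + 2 * Real.pi = s + 6 * Real.pi by ring, hX.per]
  ring

private theorem Idp_z {X : ℝ → ℝ} (hX : Tri X) (s : ℝ) :
    Real.sin (2 * dd X s) * Real.cos (2 * ps X s)
      + Real.sin (2 * dd X (s + 2 * Real.pi)) * Real.cos (2 * ps X (s + 2 * Real.pi))
      + Real.sin (2 * dd X (s + 4 * Real.pi)) * Real.cos (2 * ps X (s + 4 * Real.pi)) = 0 ∧
    Real.sin (2 * dd X s) * Real.sin (2 * ps X s)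
      + Real.sin (2 * dd X (s + 2 * Real.pi)) * Real.sin (2 * ps X (s + 2 * Real.pi))
      + Real.sin (2 * dd X (s + 4 * Real.pi)) * Real.sin (2 * ps X (s + 4 * Real.pi)) = 0 := by
  have h := sum_sin hX s
  have h1 := congrArg Complex.re h
  have h2 := congrArg Complex.im h
  simp only [en, Complex.add_re, Complex.re_ofReal_mul, Complex.zero_re] at h1
  simp only [en, Complex.add_im, Complex.im_ofReal_mul, Complex.zero_im] at h2
  exact ⟨h1, h2⟩

theorem id_pt (hs : Supp h) {X : ℝ → ℝ} (hX : Tri X) {q : ℝ → ℂ} (hqC : ContDiff ℝ 1 q)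
    (hq : ∀ s, q (s + 2 * Real.pi) = q s) (hqt : ∀ s, deriv h (ps X s) = qt (q s) (ps X s))
    (hr : ∀ s, rr h X q (s + 2 * Real.pi) = rr h X q s)
    (hT : ∀ s, Real.sin (dd X s) * deriv h (ps X s)
      + Real.sin (dd X (s + 2 * Real.pi)) * deriv h (ps X (s + 2 * Real.pi))
      + Real.sin (dd X (s + 4 * Real.pi)) * deriv h (ps X (s + 4 * Real.pi)) = 0) (s : ℝ) :
    HasDerivAt (fun s => Fb h X q s + Fb h X q (s + 2 * Real.pi) + Fb h X q (s + 4 * Real.pi))
      ((cf (dd X s) * wt h (ps X s) * deriv (ps X) s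
        + cf (dd X (s + 2 * Real.pi)) * wt h (ps X (s + 2 * Real.pi)) * deriv (ps X) (s + 2 * Real.pi)
        + cf (dd X (s + 4 * Real.pi)) * wt h (ps X (s + 4 * Real.pi)) * deriv (ps X) (s + 4 * Real.pi))
      - (eb X (deriv q s) s + eb X (deriv q s) (s + 2 * Real.pi) + eb X (deriv q s) (s + 4 * Real.pi))
      + Real.pi * cr (q s) (deriv q s)) s := by
  have hp4 : ∀ t : ℝ, t + 2 * Real.pi + 2 * Real.pi = t + 4 * Real.pi := fun t => by ring
  have hq4 : ∀ t, q (t + 4 * Real.pi) = q t := fun t => by rw [← hp4, hq, hq]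
  have hr4 : ∀ t, rr h X q (t + 4 * Real.pi) = rr h X q t := fun t => by rw [← hp4, hr, hr]
  -- the derivative of `q` is periodic
  have hqd : ∀ c : ℝ, (∀ t, q (t + c) = q t) → deriv q (s + c) = deriv q s := by
    intro c hc
    have h1 := deriv_comp_add_const q c s
    have h2 : (fun x => q (x + c)) = q := funext hc
    rw [h2] at h1
    exact h1.symm
  have hq1 := hqd _ hq
  have hq2 := hqd _ hq4
  -- derivative of the sum
  have hF := ((Idp_F hs hX hqC hqt s).add (Idp_shift s _ (Idp_F hs hX hqC hqt (s + 2 * Real.pi)))).add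
    (Idp_shift s _ (Idp_F hs hX hqC hqt (s + 4 * Real.pi)))
  refine HasDerivAt.congr_deriv
    (f := fun s => Fb h X q s + Fb h X q (s + 2 * Real.pi) + Fb h X q (s + 4 * Real.pi)) hF ?_
  -- the three relations
  have r0 : Real.cos (dd X s) * (h (ps X s) - qn (q s) (ps X s)) = rr h X q s := rfl
  have r1 : Real.cos (dd X (s + 2 * Real.pi)) * (h (ps X (s + 2 * Real.pi))
      - qn (q (s + 2 * Real.pi)) (ps X (s + 2 * Real.pi))) = rr h X q s := hr s
  have r2 : Real.cos (dd X (s + 4 * Real.pi)) * (h (ps X (s + 4 * Real.pi))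
      - qn (q (s + 4 * Real.pi)) (ps X (s + 4 * Real.pi))) = rr h X q s := hr4 s
  have q0 := Idp_r hs hX hqC hqt s
  have q1 := Idp_shift s _ (Idp_r hs hX hqC hqt (s + 2 * Real.pi))
  have q2 := Idp_shift s _ (Idp_r hs hX hqC hqt (s + 4 * Real.pi))
  rw [show (fun s => rr h X q (s + 2 * Real.pi)) = rr h X q from funext hr] at q1
  rw [show (fun s => rr h X q (s + 4 * Real.pi)) = rr h X q from funext hr4] at q2
  have q1' := q1.unique q0
  have q2' := q2.unique q0
  have hD := ((Idp_sT hs hX s).add (Idp_shift s _ (Idp_sT hs hX (s + 2 * Real.pi)))).add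
    (Idp_shift s _ (Idp_sT hs hX (s + 4 * Real.pi)))
  have hD0 : HasDerivAt (fun s => Real.sin (dd X s) * deriv h (ps X s)
      + Real.sin (dd X (s + 2 * Real.pi)) * deriv h (ps X (s + 2 * Real.pi))
      + Real.sin (dd X (s + 4 * Real.pi)) * deriv h (ps X (s + 4 * Real.pi))) 0 s := by
    rw [show (fun s => Real.sin (dd X s) * deriv h (ps X s)
      + Real.sin (dd X (s + 2 * Real.pi)) * deriv h (ps X (s + 2 * Real.pi))
      + Real.sin (dd X (s + 4 * Real.pi)) * deriv h (ps X (s + 4 * Real.pi))) = fun _ => (0 : ℝ)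
      from funext hT]
    exact hasDerivAt_const s 0
  have hD' := HasDerivAt.unique hD hD0
  obtain ⟨z1, z2⟩ := Idp_z hX s
  rw [Real.sin_two_mul (dd X s), Real.sin_two_mul (dd X (s + 2 * Real.pi)),
    Real.sin_two_mul (dd X (s + 4 * Real.pi))] at z1 z2
  have m0 := Idp_mix (q s) (deriv q s) (ps X s)
  have m1 := Idp_mix (q s) (deriv q s) (ps X (s + 2 * Real.pi))
  have m2 := Idp_mix (q s) (deriv q s) (ps X (s + 4 * Real.pi))
  have t0 := hqt s
  have t1 := hqt (s + 2 * Real.pi)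
  have t2 := hqt (s + 4 * Real.pi)
  have D0 := Idp_D hs hX hqC hqt s
  have D1 := Idp_D hs hX hqC hqt (s + 2 * Real.pi)
  have D2 := Idp_D hs hX hqC hqt (s + 4 * Real.pi)
  rw [hq] at t1 D1 q1' r1
  rw [hq1] at D1 q1'
  rw [hq4] at t2 D2 q2' r2
  rw [hq2] at D2 q2'
  rw [hq, hq4, hq1, hq2]
  have hmain := Idp_alg (Idp_sumb hX s)
    (K := cr (q s) (deriv q s)) (T0 := deriv h (ps X s)) (T1 := deriv h (ps X (s + 2 * Real.pi)))
    (T2 := deriv h (ps X (s + 4 * Real.pi)))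
    (by rw [t0]; exact Idp_cr _ _ (ps X s)) (by rw [t1]; exact Idp_cr _ _ (ps X (s + 2 * Real.pi)))
    (by rw [t2]; exact Idp_cr _ _ (ps X (s + 4 * Real.pi))) r0 r1 r2 rfl q1' q2' (hT s) hD'
    (by rw [t0, t1, t2, m0, m1, m2]
        linear_combination ((q s).im * (deriv q s).re + (q s).re * (deriv q s).im) * z1
          + ((q s).im * (deriv q s).im - (q s).re * (deriv q s).re) * z2)
    (Real.sin_sq_add_cos_sq _) (Real.sin_sq_add_cos_sq _) (Real.sin_sq_add_cos_sq _)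
  rw [hmain]
  have e0 := Idp_term (c := cf (dd X s)) (p := h (ps X s) - qn (q s) (ps X s)) (Idp_w hX s) D0 rfl
  have e1 := Idp_term (c := cf (dd X (s + 2 * Real.pi)))
    (p := h (ps X (s + 2 * Real.pi)) - qn (q s) (ps X (s + 2 * Real.pi)))
    (Idp_w hX (s + 2 * Real.pi)) D1 rfl
  have e2 := Idp_term (c := cf (dd X (s + 4 * Real.pi)))
    (p := h (ps X (s + 4 * Real.pi)) - qn (q s) (ps X (s + 4 * Real.pi)))
    (Idp_w hX (s + 4 * Real.pi)) D2 rfl
  rw [sub_add_cancel] at e0 e1 e2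
  have f0 : cf (dd X s) = Real.pi - 2 * dd X s + 2 * Real.sin (dd X s) * Real.cos (dd X s) := by
    unfold cf
    rw [Real.sin_two_mul]
  have f1 : cf (dd X (s + 2 * Real.pi)) = Real.pi - 2 * dd X (s + 2 * Real.pi)
      + 2 * Real.sin (dd X (s + 2 * Real.pi)) * Real.cos (dd X (s + 2 * Real.pi)) := by
    unfold cf
    rw [Real.sin_two_mul]
  have f2 : cf (dd X (s + 4 * Real.pi)) = Real.pi - 2 * dd X (s + 4 * Real.pi)
      + 2 * Real.sin (dd X (s + 4 * Real.pi)) * Real.cos (dd X (s + 4 * Real.pi)) := by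
    unfold cf
    rw [Real.sin_two_mul]
  rw [← f0, ← f1, ← f2, ← e0, ← e1, ← e2]
  unfold wt eb
  ring

end Pool.Agent.H1.BS
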