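/-
ROW Idi.  The integrated identity.
PROOF.  int_0^{6pi} H = int_0^{2pi} (H s + H (s+2pi) + H (s+4pi)) (Zid_three in BP/Zid is private: copy it), H = cf wt ps' continuous.  id_pt at every s; integrate over [0,2pi]
(intervalIntegral.integral_eq_sub_of_hasDerivAt; the derivative is continuous: deriv (ps X) > 0 continuous, deriv q continuous).  The bracket G s = Fb s + Fb (s+2pi) + Fb (s+4pi) has G (2pi) = G 0
because Fb (s + 6pi) = Fb s (ps X (s+6pi) = ps X s + 2pi, dd X (s+6pi) = dd X s, h, h', qn 2pi-periodic, q (s+6pi) = q s).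
-/
import Pool.Agent.H1.BS.Idp

set_option autoImplicit false

namespace Pool.Agent.H1.BS

open Pool.Agent.H1.BP MeasureTheory

variable {h : ℝ → ℝ}

private theorem Idi_three (H : ℝ → ℝ) (hH : Continuous H) :
    ∫ s in (0 : ℝ)..(6 * Real.pi), H s =
      ∫ s in (0 : ℝ)..(2 * Real.pi), (H s + H (s + 2 * Real.pi) + H (s + 4 * Real.pi)) := by
  have hi : ∀ a b : ℝ, IntervalIntegrable H volume a b := fun a b => hH.intervalIntegrable a b
  have h1 : ∫ s in (0 : ℝ)..(2 * Real.pi), H (s + 2 * Real.pi) =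
      ∫ s in (2 * Real.pi)..(4 * Real.pi), H s := by
    rw [intervalIntegral.integral_comp_add_right]
    congr 1 <;> ring
  have h2 : ∫ s in (0 : ℝ)..(2 * Real.pi), H (s + 4 * Real.pi) =
      ∫ s in (4 * Real.pi)..(6 * Real.pi), H s := by
    rw [intervalIntegral.integral_comp_add_right]
    congr 1 <;> ring
  have c1 : Continuous fun s => H (s + 2 * Real.pi) := hH.comp (continuous_add_const _)
  have c2 : Continuous fun s => H (s + 4 * Real.pi) := hH.comp (continuous_add_const _)
  have c3 : Continuous fun s => H s + H (s + 2 * Real.pi) := hH.add c1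
  have q1 : ∫ s in (0 : ℝ)..(2 * Real.pi), (H s + H (s + 2 * Real.pi) + H (s + 4 * Real.pi)) =
      (∫ s in (0 : ℝ)..(2 * Real.pi), (H s + H (s + 2 * Real.pi))) +
        ∫ s in (0 : ℝ)..(2 * Real.pi), H (s + 4 * Real.pi) :=
    intervalIntegral.integral_add (c3.intervalIntegrable _ _) (c2.intervalIntegrable _ _)
  have q2 : ∫ s in (0 : ℝ)..(2 * Real.pi), (H s + H (s + 2 * Real.pi)) =
      (∫ s in (0 : ℝ)..(2 * Real.pi), H s) + ∫ s in (0 : ℝ)..(2 * Real.pi), H (s + 2 * Real.pi) :=
    intervalIntegral.integral_add (hH.intervalIntegrable _ _) (c1.intervalIntegrable _ _)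
  rw [q1, q2, h1, h2,
    intervalIntegral.integral_add_adjacent_intervals (hi _ _) (hi _ _),
    intervalIntegral.integral_add_adjacent_intervals (hi _ _) (hi _ _)]

private theorem Idi_qn (q : ℂ) (a : ℝ) : qn q (a + 2 * Real.pi) = qn q a := by
  unfold qn
  rw [Real.cos_add_two_pi, Real.sin_add_two_pi]

private theorem Idi_Fb (hs : Supp h) {X : ℝ → ℝ} (hX : Tri X) {q : ℝ → ℂ}
    (hq : ∀ s, q (s + 2 * Real.pi) = q s) (s : ℝ) :
    Fb h X q (s + 6 * Real.pi) = Fb h X q s := by
  have hq6 : q (s + 6 * Real.pi) = q s := by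
    have e6 : s + 6 * Real.pi = s + 2 * Real.pi + 2 * Real.pi + 2 * Real.pi := by ring
    rw [e6, hq, hq, hq]
  unfold Fb
  rw [IdB_ddper hX, IdB_psper hX, hq6, hs.per, d1_per hs, Idi_qn]

theorem id_int (hs : Supp h) {X : ℝ → ℝ} (hX : Tri X) {q : ℝ → ℂ} (hqC : ContDiff ℝ 1 q)
    (hq : ∀ s, q (s + 2 * Real.pi) = q s) (hqt : ∀ s, deriv h (ps X s) = qt (q s) (ps X s))
    (hr : ∀ s, rr h X q (s + 2 * Real.pi) = rr h X q s)
    (hT : ∀ s, Real.sin (dd X s) * deriv h (ps X s)
      + Real.sin (dd X (s + 2 * Real.pi)) * deriv h (ps X (s + 2 * Real.pi))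
      + Real.sin (dd X (s + 4 * Real.pi)) * deriv h (ps X (s + 4 * Real.pi)) = 0) :
    ∫ s in (0 : ℝ)..(6 * Real.pi), cf (dd X s) * wt h (ps X s) * deriv (ps X) s
      = ∫ s in (0 : ℝ)..(2 * Real.pi), (eb X (deriv q s) s + eb X (deriv q s) (s + 2 * Real.pi)
          + eb X (deriv q s) (s + 4 * Real.pi) - Real.pi * cr (q s) (deriv q s)) := by
  have hpc : Continuous (ps X) :=
    continuous_iff_continuousAt.2 (fun s => (IdB_ps hX s).continuousAt)
  have hdc : Continuous (dd X) :=
    continuous_iff_continuousAt.2 (fun s => (IdB_dd hX s).continuousAt)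
  have hXc := IdB_Xc hX
  have hps : deriv (ps X) = fun s => (deriv X (s + 2 * Real.pi) + deriv X s) / 2 :=
    funext fun s => (IdB_ps hX s).deriv
  have hpsc : Continuous (deriv (ps X)) := by
    rw [hps]
    fun_prop
  have hpsp : ∀ s, deriv (ps X) s ≠ 0 := by
    intro s
    have e := (IdB_ps hX s).deriv
    rw [e]
    have h1 := hX.pos (s + 2 * Real.pi)
    have h2 := hX.pos s
    positivity
  have hh0 : Continuous h := c0 hs
  have hh2 : Continuous (deriv (deriv h)) := c2 hs
  have hwc : Continuous (wt h) := by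
    unfold wt
    fun_prop
  have hcc : Continuous cf := by
    unfold cf
    fun_prop
  have hqc : Continuous q := hqC.continuous
  have hqc' : Continuous (deriv q) := hqC.continuous_deriv le_rfl
  have hqr : Continuous fun s => (q s).re := Complex.continuous_re.comp hqc
  have hqi : Continuous fun s => (q s).im := Complex.continuous_im.comp hqc
  have hqr' : Continuous fun s => (deriv q s).re := Complex.continuous_re.comp hqc'
  have hqi' : Continuous fun s => (deriv q s).im := Complex.continuous_im.comp hqc'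
  obtain ⟨H, hH⟩ : ∃ H : ℝ → ℝ, H = fun s => cf (dd X s) * wt h (ps X s) * deriv (ps X) s := ⟨_, rfl⟩
  have hHc : Continuous H := by
    rw [hH]
    exact ((hcc.comp hdc).mul (hwc.comp hpc)).mul hpsc
  have hebc : ∀ c : ℝ, Continuous fun s => eb X (deriv q s) (s + c) := by
    intro c
    unfold eb qt
    have k : Continuous fun s : ℝ => s + c := continuous_add_const _
    have k1 : Continuous fun s => cf (dd X (s + c)) := (hcc.comp hdc).comp k
    have k2 : Continuous fun s => ps X (s + c) := hpc.comp k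
    have k3 : Continuous fun s => deriv (ps X) (s + c) := hpsc.comp k
    have k4 : Continuous fun s => Real.cos (ps X (s + c)) := Real.continuous_cos.comp k2
    have k5 : Continuous fun s => Real.sin (ps X (s + c)) := Real.continuous_sin.comp k2
    exact (k1.mul (((hqi'.mul k4).sub (hqr'.mul k5)).pow 2)).div k3 (fun s => hpsp _)
  have heb0 : Continuous fun s => eb X (deriv q s) s := by
    have := hebc 0
    simp only [add_zero] at this
    exact this
  have hcrc : Continuous fun s => cr (q s) (deriv q s) := by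
    unfold cr
    exact (hqr.mul hqi').sub (hqi.mul hqr')
  obtain ⟨E, hE⟩ : ∃ E : ℝ → ℝ, E = fun s => eb X (deriv q s) s + eb X (deriv q s) (s + 2 * Real.pi)
          + eb X (deriv q s) (s + 4 * Real.pi) - Real.pi * cr (q s) (deriv q s) := ⟨_, rfl⟩
  have hEc : Continuous E := by
    rw [hE]
    exact ((heb0.add (hebc _)).add (hebc _)).sub (hcrc.const_mul _)
  obtain ⟨K, hK⟩ : ∃ K : ℝ → ℝ, K = fun s => H s + H (s + 2 * Real.pi) + H (s + 4 * Real.pi) :=
    ⟨_, rfl⟩
  have hKc : Continuous K := by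
    rw [hK]
    exact (hHc.add (hHc.comp (continuous_add_const _))).add (hHc.comp (continuous_add_const _))
  obtain ⟨G, hG⟩ : ∃ G : ℝ → ℝ, G = fun s => Fb h X q s + Fb h X q (s + 2 * Real.pi)
      + Fb h X q (s + 4 * Real.pi) := ⟨_, rfl⟩
  have hD : ∀ s, HasDerivAt G (K s - E s) s := by
    intro s
    have h1 := id_pt hs hX hqC hq hqt hr hT s
    rw [hG]
    refine h1.congr_deriv ?_
    rw [hK, hE, hH]
    ring
  have hint : ∫ s in (0 : ℝ)..(2 * Real.pi), (K s - E s) = G (2 * Real.pi) - G 0 :=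
    intervalIntegral.integral_eq_sub_of_hasDerivAt (fun t _ => hD t)
      ((hKc.sub hEc).intervalIntegrable _ _)
  have hG0 : G (2 * Real.pi) = G 0 := by
    rw [hG]
    have h1 := Idi_Fb hs hX hq 0
    have e1 : (2 : ℝ) * Real.pi + 2 * Real.pi = 0 + 4 * Real.pi := by ring
    have e2 : (2 : ℝ) * Real.pi + 4 * Real.pi = 0 + 6 * Real.pi := by ring
    have e3 : (0 : ℝ) + 2 * Real.pi = 2 * Real.pi := by ring
    show Fb h X q (2 * Real.pi) + Fb h X q (2 * Real.pi + 2 * Real.pi)
      + Fb h X q (2 * Real.pi + 4 * Real.pi) = Fb h X q 0 + Fb h X q (0 + 2 * Real.pi)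
      + Fb h X q (0 + 4 * Real.pi)
    rw [e1, e2, e3, h1]
    ring
  rw [hG0, sub_self, intervalIntegral.integral_sub (hKc.intervalIntegrable _ _)
    (hEc.intervalIntegrable _ _)] at hint
  have h3 := Idi_three H hHc
  have h4 : ∫ s in (0 : ℝ)..(6 * Real.pi), cf (dd X s) * wt h (ps X s) * deriv (ps X) s
      = ∫ s in (0 : ℝ)..(6 * Real.pi), H s := by rw [hH]
  have h5 : ∫ s in (0 : ℝ)..(2 * Real.pi), (eb X (deriv q s) s + eb X (deriv q s) (s + 2 * Real.pi)
          + eb X (deriv q s) (s + 4 * Real.pi) - Real.pi * cr (q s) (deriv q s))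
      = ∫ s in (0 : ℝ)..(2 * Real.pi), E s := by rw [hE]
  have h6 : ∫ s in (0 : ℝ)..(2 * Real.pi), (H s + H (s + 2 * Real.pi) + H (s + 4 * Real.pi))
      = ∫ s in (0 : ℝ)..(2 * Real.pi), K s := by rw [hK]
  rw [h4, h5, h3, h6]
  linarith

end Pool.Agent.H1.BS
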