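/-
ROW Pv.  The pointwise inequality.
PROOF.  d_k = dd X (s+2pi k) in (0, pi/2), a_k = ps X (s + 2 pi k), w_k = deriv (ps X) (s + 2 pi k) = (X'(s+2pi(k+1)) + X'(s+2pi k))/2 (IdB_ps, BP/IdB) with X' > 0 and X' s + X'(s+2pi) + X'(s+4pi) = 1
(derivative of hX.sum), X'(s+6pi) = X' s: so 0 < w_k < 1/2.  cf d = b + sin b >= 2 sin b = 2 sin 2d with b = pi - 2d in (0, pi) (Real.sin_lt, sin (pi - 2d) = sin 2d >= 0).
So eb X v s_k = cf (d_k) qt(v,a_k)^2 / w_k >= 4 sin (2 d_k) qt(v,a_k)^2.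
qt v a ^2 = |v|^2/2 + ((v.im^2 - v.re^2)/2) cos 2a - v.re v.im sin 2a; sum_k sin(2 d_k) cos 2a_k = sum_k sin (2 d_k) sin 2 a_k = 0 (sum_sin, BP/Zet; re and im parts), so
sum_k 4 sin (2 d_k) qt(v,a_k)^2 = 2 |v|^2 sum sin (2 d_k) >= 4 |v|^2.
-/
import Pool.Agent.H1.BS.Defs
import Pool.Agent.H1.BP.IdB
import Pool.Agent.H1.BP.Zet

set_option autoImplicit false

namespace Pool.Agent.H1.BS

open Pool.Agent.H1.BP

private theorem Pv_sum {X : ℝ → ℝ} (hX : Tri X) (s : ℝ) :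
    deriv X s + deriv X (s + 2 * Real.pi) + deriv X (s + 4 * Real.pi) = 1 := by
  have h1 : HasDerivAt (fun s => X s + X (s + 2 * Real.pi) + X (s + 4 * Real.pi))
      (deriv X s + deriv X (s + 2 * Real.pi) + deriv X (s + 4 * Real.pi)) s :=
    ((IdB_X hX s).add (IdB_X2 hX s (2 * Real.pi))).add (IdB_X2 hX s (4 * Real.pi))
  have h2 : (fun s => X s + X (s + 2 * Real.pi) + X (s + 4 * Real.pi)) = fun s => s :=
    funext hX.sum
  rw [h2] at h1
  exact h1.unique (hasDerivAt_id s)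

private theorem Pv_w {X : ℝ → ℝ} (hX : Tri X) (s : ℝ) :
    0 < deriv (ps X) s ∧ deriv (ps X) s < 1 / 2 := by
  rw [(IdB_ps hX s).deriv]
  have h1 := Pv_sum hX s
  have h2 := hX.pos s
  have h3 := hX.pos (s + 2 * Real.pi)
  have h4 := hX.pos (s + 4 * Real.pi)
  constructor <;> linarith

private theorem Pv_cf {X : ℝ → ℝ} (hX : Tri X) (s : ℝ) :
    2 * Real.sin (2 * dd X s) ≤ cf (dd X s) := by
  have h1 := Mat_dd1 hX s
  have h2 : Real.sin (Real.pi - 2 * dd X s) < Real.pi - 2 * dd X s :=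
    Real.sin_lt (by linarith)
  rw [Real.sin_pi_sub] at h2
  unfold cf
  linarith

private theorem Pv_eb {X : ℝ → ℝ} (hX : Tri X) (s : ℝ) (v : ℂ) :
    4 * Real.sin (2 * dd X s) * qt v (ps X s) ^ 2 ≤ eb X v s := by
  obtain ⟨w0, w1⟩ := Pv_w hX s
  have h1 := Pv_cf hX s
  have h2 := Mat_sin hX s
  have h3 : (0 : ℝ) ≤ qt v (ps X s) ^ 2 := sq_nonneg _
  unfold eb
  rw [le_div_iff₀ w0]
  have h4 : 2 * Real.sin (2 * dd X s) * qt v (ps X s) ^ 2
      ≤ cf (dd X s) * qt v (ps X s) ^ 2 := mul_le_mul_of_nonneg_right h1 h3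
  have h5 : 0 ≤ 4 * Real.sin (2 * dd X s) * qt v (ps X s) ^ 2 := by positivity
  have h6 : 4 * Real.sin (2 * dd X s) * qt v (ps X s) ^ 2 * deriv (ps X) s
      ≤ 4 * Real.sin (2 * dd X s) * qt v (ps X s) ^ 2 * (1 / 2) :=
    mul_le_mul_of_nonneg_left w1.le h5
  linarith

private theorem Pv_qt (v : ℂ) (a : ℝ) :
    qt v a ^ 2 = Complex.normSq v / 2 + (v.im ^ 2 - v.re ^ 2) / 2 * Real.cos (2 * a)
      - v.re * v.im * Real.sin (2 * a) := by
  unfold qt
  rw [Complex.normSq_apply, Real.cos_two_mul', Real.sin_two_mul]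
  linear_combination ((v.re * v.re + v.im * v.im) / 2) * Real.sin_sq_add_cos_sq a

theorem pointwise {X : ℝ → ℝ} (hX : Tri X) (s : ℝ)
    (hs : 2 ≤ Real.sin (2 * dd X s) + Real.sin (2 * dd X (s + 2 * Real.pi)) + Real.sin (2 * dd X (s + 4 * Real.pi)))
    (v : ℂ) :
    4 * Complex.normSq v ≤ eb X v s + eb X v (s + 2 * Real.pi) + eb X v (s + 4 * Real.pi) := by
  have e0 := Pv_eb hX s v
  have e1 := Pv_eb hX (s + 2 * Real.pi) v
  have e2 := Pv_eb hX (s + 4 * Real.pi) v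
  have hsum := sum_sin hX s
  have hre := congrArg Complex.re hsum
  have him := congrArg Complex.im hsum
  simp only [en, Complex.add_re, Complex.re_ofReal_mul, Complex.zero_re] at hre
  simp only [en, Complex.add_im, Complex.im_ofReal_mul, Complex.zero_im] at him
  rw [Pv_qt] at e0 e1 e2
  have hv : 0 ≤ Complex.normSq v := Complex.normSq_nonneg v
  have hm := mul_le_mul_of_nonneg_left hs hv
  generalize Real.sin (2 * dd X s) = A at *
  generalize Real.sin (2 * dd X (s + 2 * Real.pi)) = B at *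
  generalize Real.sin (2 * dd X (s + 4 * Real.pi)) = C at *
  have k : 4 * A * (Complex.normSq v / 2 + (v.im ^ 2 - v.re ^ 2) / 2 * Real.cos (2 * ps X s)
        - v.re * v.im * Real.sin (2 * ps X s))
      + 4 * B * (Complex.normSq v / 2 + (v.im ^ 2 - v.re ^ 2) / 2
        * Real.cos (2 * ps X (s + 2 * Real.pi)) - v.re * v.im
        * Real.sin (2 * ps X (s + 2 * Real.pi)))
      + 4 * C * (Complex.normSq v / 2 + (v.im ^ 2 - v.re ^ 2) / 2
        * Real.cos (2 * ps X (s + 4 * Real.pi)) - v.re * v.im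
        * Real.sin (2 * ps X (s + 4 * Real.pi)))
      = 2 * (Complex.normSq v * (A + B + C)) := by
    linear_combination 2 * (v.im ^ 2 - v.re ^ 2) * hre - 4 * (v.re * v.im) * him
  linarith

end Pool.Agent.H1.BS
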