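/-
ROW Ql.  The incenter loop of the triangles.
Let a s = ps X s, T s = deriv h (a s), d s = dd X s.  (x_k = X (s + 2 pi k), a_k = ps X (s + 2 pi k), d_k = dd X (s+2 pi k), d_0+d_1+d_2 = pi.)
(1) sum_k sin d_k T_k = 0: p1 h x y - p0 h x y = 2 h'((x+y)/2) sin ((y-x)/2), hf.inv (X s): p1 h (X s) (X (s+2pi)) = p0 h (X (s+2pi)) (X (s+4pi)); add three (X (s+6pi) = X s + 2pi, p0_per).
(2) sum_k sin d_k t(a_k) = 0, i.e. for all z : ℂ, sum_k sin d_k qt z a_k = 0:  2 sin d_k cos a_k = sin x_{k+1} - sin x_k, 2 sin d_k sin a_k = cos x_k - cos x_{k+1}; telescoping.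
(3) q s := (1 / sin (a (s+2pi) - a s)) * (T s * n(a (s+2pi)) - T (s+2pi) * n(a s)), n(a) = cos a + i sin a;  a (s+2pi) - a s = d_0 + d_1 = pi - d_2, 0 < d_2 < pi, so the sine is sin d_2 > 0.
  qt (n b) a = sin (b - a).  So qt (q s) (a s) = T s, qt (q s) (a (s+2pi)) = T (s+2pi).
(4) periodic: qt (q s) a_k = T_k for k = 0,1; by (1),(2) and sin d_2 > 0 also for k = 2.  qt z a_1 = qt z' a_1, qt z a_2 = qt z' a_2 and sin (a_2 - a_1) ≠ 0 imply z = z'.
(5) C^1: a is C^1 (core_ps_C1 in BP/Core), deriv h is C^1 (hs.smooth C^2), X C^1.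
-/
import Pool.Agent.H1.BS.Defs
import Pool.Agent.H1.BP.Core

set_option autoImplicit false

namespace Pool.Agent.H1.BS

open Pool.Agent.H1.BP

variable {h : ℝ → ℝ}

private theorem Ql_diff (h : ℝ → ℝ) (x y : ℝ) :
    p1 h x y - p0 h x y = 2 * (Real.sin ((y - x) / 2) * deriv h ((y + x) / 2)) := by
  unfold p1 p0
  rw [add_comm y x]; ring

private theorem Ql_X6 {X : ℝ → ℝ} (hX : Tri X) (s : ℝ) : X (s + 4 * Real.pi + 2 * Real.pi) = X s + 2 * Real.pi := by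
  rw [show s + 4 * Real.pi + 2 * Real.pi = s + 6 * Real.pi by ring, hX.per]

private theorem Ql_X4 (X : ℝ → ℝ) (s : ℝ) : X (s + 2 * Real.pi + 2 * Real.pi) = X (s + 4 * Real.pi) := by
  rw [show s + 2 * Real.pi + 2 * Real.pi = s + 4 * Real.pi by ring]

theorem sum_T (hs : Supp h) {f : ℝ → ℝ} (hf : Circle h f) {X : ℝ → ℝ} (hX : Tri X)
    (hXf : ∀ s, X (s + 2 * Real.pi) = f (X s)) (s : ℝ) :
    Real.sin (dd X s) * deriv h (ps X s) + Real.sin (dd X (s + 2 * Real.pi)) * deriv h (ps X (s + 2 * Real.pi))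
      + Real.sin (dd X (s + 4 * Real.pi)) * deriv h (ps X (s + 4 * Real.pi)) = 0 := by
  have e0 := Ql_diff h (X s) (X (s + 2 * Real.pi))
  have e1 := Ql_diff h (X (s + 2 * Real.pi)) (X (s + 2 * Real.pi + 2 * Real.pi))
  have e2 := Ql_diff h (X (s + 4 * Real.pi)) (X (s + 4 * Real.pi + 2 * Real.pi))
  have i0 : p1 h (X s) (X (s + 2 * Real.pi)) = p0 h (X (s + 2 * Real.pi)) (X (s + 2 * Real.pi + 2 * Real.pi)) := by
    rw [hXf (s + 2 * Real.pi), hXf s]; exact hf.inv _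
  have i1 : p1 h (X (s + 2 * Real.pi)) (X (s + 2 * Real.pi + 2 * Real.pi))
      = p0 h (X (s + 4 * Real.pi)) (X (s + 4 * Real.pi + 2 * Real.pi)) := by
    have := hf.inv (X (s + 2 * Real.pi))
    rw [hXf (s + 4 * Real.pi), ← Ql_X4 X s, hXf (s + 2 * Real.pi)]; exact this
  have i2 : p1 h (X (s + 4 * Real.pi)) (X (s + 4 * Real.pi + 2 * Real.pi)) = p0 h (X s) (X (s + 2 * Real.pi)) := by
    have := hf.inv (X (s + 4 * Real.pi))
    rw [← hXf (s + 4 * Real.pi), Ql_X6 hX, hf.per, ← hXf s, p0_per hs] at this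
    rw [Ql_X6 hX]; exact this
  simp only [dd, ps]
  linarith

private theorem Ql_sc (x y : ℝ) : 2 * (Real.sin ((y - x) / 2) * Real.cos ((y + x) / 2)) = Real.sin y - Real.sin x := by
  rw [Real.sin_sub_sin]; ring

private theorem Ql_ss (x y : ℝ) : 2 * (Real.sin ((y - x) / 2) * Real.sin ((y + x) / 2)) = Real.cos x - Real.cos y := by
  rw [Real.cos_sub_cos, show (x - y) / 2 = -((y - x) / 2) by ring, Real.sin_neg, add_comm x y]; ring

private theorem Ql_sumz {X : ℝ → ℝ} (hX : Tri X) (z : ℂ) (s : ℝ) :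
    Real.sin (dd X s) * qt z (ps X s) + Real.sin (dd X (s + 2 * Real.pi)) * qt z (ps X (s + 2 * Real.pi))
      + Real.sin (dd X (s + 4 * Real.pi)) * qt z (ps X (s + 4 * Real.pi)) = 0 := by
  have a0 := Ql_sc (X s) (X (s + 2 * Real.pi))
  have a1 := Ql_sc (X (s + 2 * Real.pi)) (X (s + 2 * Real.pi + 2 * Real.pi))
  have a2 := Ql_sc (X (s + 4 * Real.pi)) (X (s + 4 * Real.pi + 2 * Real.pi))
  have b0 := Ql_ss (X s) (X (s + 2 * Real.pi))
  have b1 := Ql_ss (X (s + 2 * Real.pi)) (X (s + 2 * Real.pi + 2 * Real.pi))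
  have b2 := Ql_ss (X (s + 4 * Real.pi)) (X (s + 4 * Real.pi + 2 * Real.pi))
  have c1 : Real.sin (X (s + 4 * Real.pi + 2 * Real.pi)) = Real.sin (X s) := by
    rw [Ql_X6 hX, Real.sin_add_two_pi]
  have c2 : Real.cos (X (s + 4 * Real.pi + 2 * Real.pi)) = Real.cos (X s) := by
    rw [Ql_X6 hX, Real.cos_add_two_pi]
  have c3 := Ql_X4 X s
  rw [c1] at a2
  rw [c2] at b2
  simp only [dd, ps, qt]
  rw [c3] at a1 b1 ⊢
  linear_combination (z.im / 2) * (a0 + a1 + a2) - (z.re / 2) * (b0 + b1 + b2)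

private theorem Ql_qt_en (a b : ℝ) : qt (en b) a = Real.sin (b - a) := by
  simp only [qt, en]; rw [Real.sin_sub]

private theorem Ql_lin (c u v : ℝ) (z w : ℂ) (a : ℝ) :
    qt ((c : ℂ) * ((u : ℂ) * z - (v : ℂ) * w)) a = c * (u * qt z a - v * qt w a) := by
  simp [qt]; ring

private theorem Ql_inj {z w : ℂ} {a b : ℝ} (hs : Real.sin (b - a) ≠ 0) (h1 : qt z a = qt w a) (h2 : qt z b = qt w b) :
    z = w := by
  unfold qt at h1 h2
  rw [Real.sin_sub] at hs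
  apply Complex.ext
  · apply mul_right_cancel₀ hs
    linear_combination Real.cos b * h1 - Real.cos a * h2
  · apply mul_right_cancel₀ hs
    linear_combination Real.sin b * h1 - Real.sin a * h2

private theorem Ql_gap {X : ℝ → ℝ} (hX : Tri X) (s : ℝ) :
    ps X (s + 2 * Real.pi) - ps X s = Real.pi - dd X (s + 4 * Real.pi) := by
  simp only [ps, dd]
  rw [Ql_X6 hX, Ql_X4 X s]; ring

private theorem Ql_mono {X : ℝ → ℝ} (hX : Tri X) : StrictMono X :=
  strictMono_of_deriv_pos hX.pos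

private theorem Ql_d_pos {X : ℝ → ℝ} (hX : Tri X) (s : ℝ) : 0 < dd X s := by
  have h1 := Ql_mono hX (show s < s + 2 * Real.pi by have := Real.pi_pos; linarith)
  unfold dd; linarith

private theorem Ql_d_lt {X : ℝ → ℝ} (hX : Tri X) (s : ℝ) : dd X s < Real.pi := by
  have h1 := hX.gap s
  have := Real.pi_pos
  unfold dd; linarith

private theorem Ql_sin_pos {X : ℝ → ℝ} (hX : Tri X) (s : ℝ) : 0 < Real.sin (dd X s) :=
  Real.sin_pos_of_pos_of_lt_pi (Ql_d_pos hX s) (Ql_d_lt hX s)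

private theorem Ql_sg {X : ℝ → ℝ} (hX : Tri X) (s : ℝ) :
    Real.sin (ps X (s + 2 * Real.pi) - ps X s) = Real.sin (dd X (s + 4 * Real.pi)) := by
  rw [Ql_gap hX, Real.sin_pi_sub]

/-- the incenter -/
private noncomputable def Ql_q (h X : ℝ → ℝ) (s : ℝ) : ℂ :=
  ((Real.sin (ps X (s + 2 * Real.pi) - ps X s))⁻¹ : ℝ) *
    ((deriv h (ps X s) : ℝ) * en (ps X (s + 2 * Real.pi)) - (deriv h (ps X (s + 2 * Real.pi)) : ℝ) * en (ps X s))

private theorem Ql_q0 {X : ℝ → ℝ} (hX : Tri X) (s : ℝ) : qt (Ql_q h X s) (ps X s) = deriv h (ps X s) := by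
  have hp := Ql_sin_pos hX (s + 4 * Real.pi)
  rw [← Ql_sg hX] at hp
  unfold Ql_q
  rw [Ql_lin, Ql_qt_en, Ql_qt_en, sub_self, Real.sin_zero, mul_zero, sub_zero]
  field_simp

private theorem Ql_q1 {X : ℝ → ℝ} (hX : Tri X) (s : ℝ) :
    qt (Ql_q h X s) (ps X (s + 2 * Real.pi)) = deriv h (ps X (s + 2 * Real.pi)) := by
  have hp := Ql_sin_pos hX (s + 4 * Real.pi)
  rw [← Ql_sg hX] at hp
  unfold Ql_q
  rw [Ql_lin, Ql_qt_en, Ql_qt_en, sub_self, Real.sin_zero, mul_zero,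
    show ps X s - ps X (s + 2 * Real.pi) = -(ps X (s + 2 * Real.pi) - ps X s) by ring, Real.sin_neg]
  field_simp
  ring

theorem q_exists (hs : Supp h) {f : ℝ → ℝ} (hf : Circle h f) {X : ℝ → ℝ} (hX : Tri X)
    (hXf : ∀ s, X (s + 2 * Real.pi) = f (X s)) :
    ∃ q : ℝ → ℂ, ContDiff ℝ 1 q ∧ (∀ s, q (s + 2 * Real.pi) = q s) ∧
      ∀ s, deriv h (ps X s) = qt (q s) (ps X s) := by
  refine ⟨Ql_q h X, ?_, ?_, fun s => (Ql_q0 hX s).symm⟩
  · have h2 : ContDiff ℝ 1 (deriv h) := by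
      have := hs.smooth
      rw [show (2 : WithTop ℕ∞) = 1 + 1 by norm_num] at this
      exact (contDiff_succ_iff_deriv.1 this).2.2
    have a0 := core_ps_C1 hX
    have a1 : ContDiff ℝ 1 (fun s => ps X (s + 2 * Real.pi)) := a0.comp (contDiff_id.add contDiff_const)
    have t0 : ContDiff ℝ 1 (fun s => ((deriv h (ps X s) : ℝ) : ℂ)) := Complex.ofRealCLM.contDiff.comp (h2.comp a0)
    have t1 : ContDiff ℝ 1 (fun s => ((deriv h (ps X (s + 2 * Real.pi)) : ℝ) : ℂ)) :=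
      Complex.ofRealCLM.contDiff.comp (h2.comp a1)
    have n0 : ContDiff ℝ 1 (fun s => en (ps X s)) := core_en_C1.comp a0
    have n1 : ContDiff ℝ 1 (fun s => en (ps X (s + 2 * Real.pi))) := core_en_C1.comp a1
    have s0 : ContDiff ℝ 1 (fun s => (Real.sin (ps X (s + 2 * Real.pi) - ps X s))⁻¹) := by
      apply ContDiff.inv (Real.contDiff_sin.comp (a1.sub a0))
      intro s
      have hp := Ql_sin_pos hX (s + 4 * Real.pi)
      rw [← Ql_sg hX] at hp
      exact hp.ne'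
    have s1 : ContDiff ℝ 1 (fun s => (((Real.sin (ps X (s + 2 * Real.pi) - ps X s))⁻¹ : ℝ) : ℂ)) :=
      Complex.ofRealCLM.contDiff.comp s0
    exact s1.mul ((t0.mul n1).sub (t1.mul n0))
  · intro s
    have e1 : ps X (s + 2 * Real.pi + 2 * Real.pi) = ps X (s + 4 * Real.pi) := by
      rw [show s + 2 * Real.pi + 2 * Real.pi = s + 4 * Real.pi by ring]
    have k1 := Ql_q1 (h := h) hX s
    have k1' := Ql_q0 (h := h) hX (s + 2 * Real.pi)
    have k2' := Ql_q1 (h := h) hX (s + 2 * Real.pi)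
    rw [e1] at k2'
    have hT := sum_T hs hf hX hXf s
    have hz := Ql_sumz hX (Ql_q h X s) s
    rw [Ql_q0 hX, Ql_q1 hX] at hz
    have hp := Ql_sin_pos hX (s + 4 * Real.pi)
    have k2 : qt (Ql_q h X s) (ps X (s + 4 * Real.pi)) = deriv h (ps X (s + 4 * Real.pi)) := by
      apply mul_left_cancel₀ hp.ne'
      linarith
    have hp2 := Ql_sin_pos hX (s + 2 * Real.pi + 4 * Real.pi)
    rw [← Ql_sg hX, e1] at hp2
    exact Ql_inj hp2.ne' (k1'.trans k1.symm) (k2'.trans k2.symm)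

end Pool.Agent.H1.BS
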