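/-
ROW W2.  The circle of 2-periodic orbits: f2 x = x + pi and constant width.
PROOF.  Fix x; x1 = f2 x in (x, x + 2 pi), f2 x1 = x + 2 pi, f2 (x + 2 pi) = x1 + 2 pi (per).  inv at x: p1 h x x1 = p0 h x1 (x+2pi);  inv at x1: p1 h x1 (x+2pi) = p0 h (x+2pi) (x1+2pi) = p0 h x x1
(p0_per).  With a = (x+x1)/2, d = (x1-x)/2 in (0,pi) and (x1+x+2pi)/2 = a+pi, (x+2pi-x1)/2 = pi-d (unfold p0 p1; cos (pi-d) = -cos d, sin (pi-d) = sin d):
   h a cos d + h' a sin d = - h(a+pi) cos d - h'(a+pi) sin d   and   - h(a+pi) cos d + h'(a+pi) sin d = h a cos d - h' a sin d.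
Sum: 2 (h a + h (a+pi)) cos d = 0, width_pos (BP/Wid) => cos d = 0 => d = pi/2 (0<d<pi), f2 x = x + pi.  Then a = x + pi/2, sin d = 1: h' a + h' (a+pi) = 0 for every a (x := a - pi/2), so
x ↦ h x + h (x+pi) has derivative 0 (hd0), constant (is_const_of_deriv_eq_zero).
-/
import Pool.Agent.H1.BS.Defs
import Pool.Agent.H1.BP.Wid

set_option autoImplicit false

namespace Pool.Agent.H1.BS

open Pool.Agent.H1.BP

variable {h : ℝ → ℝ}

private theorem key (hs : Supp h) {f2 : ℝ → ℝ} (hf2 : Circle h f2) (h2 : ∀ x, f2 (f2 x) = x + 2 * Real.pi) (x : ℝ) :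
    f2 x = x + Real.pi ∧ deriv h (x + Real.pi / 2) + deriv h (x + Real.pi / 2 + Real.pi) = 0 := by
  have i1 := hf2.inv x
  have i2 := hf2.inv (f2 x)
  rw [h2 x] at i1 i2
  rw [hf2.per x, p0_per hs] at i2
  have lo := hf2.lo x
  have hi := hf2.hi x
  obtain ⟨a, ha⟩ : ∃ a, a = (x + f2 x) / 2 := ⟨_, rfl⟩
  obtain ⟨d, hd⟩ : ∃ d, d = (f2 x - x) / 2 := ⟨_, rfl⟩
  have e1 : (f2 x + (x + 2 * Real.pi)) / 2 = a + Real.pi := by rw [ha]; ring
  have e2 : (x + 2 * Real.pi - f2 x) / 2 = Real.pi - d := by rw [hd]; ring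
  unfold p1 p0 at i1 i2
  rw [← ha, ← hd, e1, e2, Real.cos_pi_sub, Real.sin_pi_sub] at i1 i2
  have hd0' : 0 < d := by rw [hd]; linarith
  have hdpi : d < Real.pi := by rw [hd]; linarith
  have hw := width_pos hs a
  have hc : Real.cos d = 0 := by
    have : 2 * ((h a + h (a + Real.pi)) * Real.cos d) = 0 := by linear_combination i1 - i2
    have h3 : (h a + h (a + Real.pi)) * Real.cos d = 0 := by linarith
    exact (mul_eq_zero.mp h3).resolve_left hw.ne'
  have hdh : d = Real.pi / 2 := by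
    apply Real.injOn_cos ⟨hd0'.le, hdpi.le⟩ ⟨by linarith [Real.pi_pos], by linarith [Real.pi_pos]⟩
    rw [hc, Real.cos_pi_div_two]
  have hf : f2 x = x + Real.pi := by
    have : (f2 x - x) / 2 = Real.pi / 2 := by rw [← hd, hdh]
    linarith
  refine ⟨hf, ?_⟩
  have hax : x + Real.pi / 2 = a := by rw [ha, hf]; ring
  rw [hax]
  rw [hc, hdh, Real.sin_pi_div_two] at i1
  linarith

theorem half_circle (hs : Supp h) {f2 : ℝ → ℝ} (hf2 : Circle h f2) (h2 : ∀ x, f2 (f2 x) = x + 2 * Real.pi) :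
    (∀ x, f2 x = x + Real.pi) ∧ ∃ m, ∀ x, h x + h (x + Real.pi) = 2 * m := by
  refine ⟨fun x => (key hs hf2 h2 x).1, (h 0 + h (0 + Real.pi)) / 2, ?_⟩
  have hder : ∀ x, HasDerivAt (fun x => h x + h (x + Real.pi)) (deriv h x + deriv h (x + Real.pi)) x := by
    intro x
    have h3 : HasDerivAt (fun x => h (x + Real.pi)) (deriv h (x + Real.pi)) x :=
      (hd0 hs (x + Real.pi)).comp_add_const x Real.pi
    exact (hd0 hs x).add h3
  have hdiff : Differentiable ℝ (fun x => h x + h (x + Real.pi)) := fun x => (hder x).differentiableAt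
  have hz : ∀ x, deriv (fun x => h x + h (x + Real.pi)) x = 0 := by
    intro x
    rw [(hder x).deriv]
    have := (key hs hf2 h2 (x - Real.pi / 2)).2
    rw [sub_add_cancel] at this
    exact this
  intro x
  have h4 := is_const_of_deriv_eq_zero hdiff hz x 0

  rw [h4]
  ring

end Pool.Agent.H1.BS
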