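/-
ROW Wi.  Wirtinger: for C^1, 2pi-periodic y : R -> C,  int cr y y' <= int |y'|^2.
PROOF.  Pool/Agent/H1/BP/Prs.lean contains (private) prs_lin: HasSum (fun n => (n + c)^2 * ‖∫ e^{-ins} y‖^2) (2 pi (∫|y'|^2 + 2 c ∫ cr y y' + c^2 ∫ |y|^2)) for real c, and prs_pars (Parseval).
Copy what is needed (prs_pars, prs_der, prs_nc, prs_int, prs_lin).  Take c = -1/2 and subtract (1/4) Parseval: sum (n^2 - n) |y_n|^2 = 2 pi (∫|y'|^2 - ∫ cr y y'), and n^2 - n >= 0 for n : ℤ.
(cr z w = z.re * w.im - z.im * w.re.)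
-/
import Pool.Agent.H1.BP.Defs

set_option autoImplicit false

namespace Pool.Agent.H1.BS

open Pool.Agent.H1.BP MeasureTheory Set

private theorem wi_pars (f : ℝ → ℂ) (hf : Continuous f) :
    HasSum (fun n : ℤ => ‖∫ s in (0 : ℝ)..(2 * Real.pi), Complex.exp (-(Complex.I * n * s)) * f s‖ ^ 2)
      (2 * Real.pi * ∫ s in (0 : ℝ)..(2 * Real.pi), ‖f s‖ ^ 2) := by
  have hpi : (0 : ℝ) < 2 * Real.pi := by positivity
  have hL2 : MemLp f 2 (volume.restrict (Ioc 0 (2 * Real.pi))) := by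
    obtain ⟨C, hC⟩ := isCompact_Icc.exists_bound_of_continuousOn (s := Icc 0 (2 * Real.pi)) (f := f) hf.continuousOn
    have : IsFiniteMeasure (volume.restrict (Ioc 0 (2 * Real.pi))) := ⟨by
      rw [Measure.restrict_apply MeasurableSet.univ, univ_inter, Real.volume_Ioc]
      exact ENNReal.ofReal_lt_top⟩
    refine MemLp.of_bound hf.aestronglyMeasurable C ?_
    refine (ae_restrict_iff' measurableSet_Ioc).2 (Filter.Eventually.of_forall fun x hx => hC x (Ioc_subset_Icc_self hx))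
  have h := hasSum_sq_fourierCoeffOn hpi hL2
  have h2 := h.mul_left ((2 * Real.pi) ^ 2)
  have e1 : ∀ n : ℤ, (2 * Real.pi) ^ 2 * ‖fourierCoeffOn hpi f n‖ ^ 2
      = ‖∫ s in (0 : ℝ)..(2 * Real.pi), Complex.exp (-(Complex.I * n * s)) * f s‖ ^ 2 := by
    intro n
    rw [fourierCoeffOn_eq_integral]
    have e2 : (∫ x in (0 : ℝ)..(2 * Real.pi), fourier (-n) (x : AddCircle (2 * Real.pi - 0)) • f x)
        = ∫ s in (0 : ℝ)..(2 * Real.pi), Complex.exp (-(Complex.I * n * s)) * f s := by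
      apply intervalIntegral.integral_congr
      intro x _
      have : fourier (-n) (x : AddCircle (2 * Real.pi - 0)) = Complex.exp (-(Complex.I * n * x)) := by
        rw [fourier_coe_apply]
        have hp : (Real.pi : ℂ) ≠ 0 := by exact_mod_cast Real.pi_ne_zero
        apply congrArg
        push_cast
        rw [sub_zero]
        field_simp
      simp only [this, smul_eq_mul]
    rw [e2, norm_smul, mul_pow, sub_zero]
    have : ‖1 / (2 * Real.pi)‖ = 1 / (2 * Real.pi) := by
      rw [Real.norm_eq_abs, abs_of_pos (by positivity)]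
    rw [this]
    field_simp
  have e3 : (2 * Real.pi) ^ 2 * ((2 * Real.pi - 0)⁻¹ • ∫ x in (0 : ℝ)..(2 * Real.pi), ‖f x‖ ^ 2)
      = 2 * Real.pi * ∫ s in (0 : ℝ)..(2 * Real.pi), ‖f s‖ ^ 2 := by
    rw [smul_eq_mul, sub_zero]
    field_simp
  rw [e3] at h2
  simpa only [e1] using h2

private theorem wi_der (y : ℝ → ℂ) (hy : ContDiff ℝ 1 y) (hp : ∀ s, y (s + 2 * Real.pi) = y s) (c : ℝ) (n : ℤ) :
    ∫ s in (0 : ℝ)..(2 * Real.pi), Complex.exp (-(Complex.I * n * s)) * (deriv y s + Complex.I * c * y s)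
      = Complex.I * (n + c) * ∫ s in (0 : ℝ)..(2 * Real.pi), Complex.exp (-(Complex.I * n * s)) * y s := by
  have hyc : Continuous y := hy.continuous
  have hdc : Continuous (deriv y) := hy.continuous_deriv le_rfl
  have hd : ∀ s, HasDerivAt y (deriv y s) s := fun s => (hy.differentiable one_ne_zero s).hasDerivAt
  have he : ∀ s : ℝ, HasDerivAt (fun s : ℝ => Complex.exp (-(Complex.I * n * s)))
      (Complex.exp (-(Complex.I * n * s)) * (-(Complex.I * n))) s := by
    intro s
    have h1 : HasDerivAt (fun s : ℝ => -(Complex.I * n * (s : ℂ))) (-(Complex.I * n * 1)) s :=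
      ((Complex.ofRealCLM.hasDerivAt (x := s)).const_mul (Complex.I * n)).neg
    have h2 := h1.cexp
    rwa [mul_one] at h2
  have hce : Continuous fun s : ℝ => Complex.exp (-(Complex.I * n * s)) := by fun_prop
  have key : ∫ s in (0 : ℝ)..(2 * Real.pi),
      (Complex.exp (-(Complex.I * n * s)) * (-(Complex.I * n)) * y s
        + Complex.exp (-(Complex.I * n * s)) * deriv y s) = 0 := by
    rw [intervalIntegral.integral_eq_sub_of_hasDerivAt (f := fun s : ℝ => Complex.exp (-(Complex.I * n * s)) * y s)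
      (fun s _ => (he s).mul (hd s))
      (Continuous.intervalIntegrable (by fun_prop) _ _)]
    have h1 : y (2 * Real.pi) = y 0 := by
      have := hp 0
      rwa [zero_add] at this
    have h2 : Complex.exp (-(Complex.I * n * ((2 * Real.pi : ℝ) : ℂ))) = 1 := by
      rw [Complex.exp_eq_one_iff]
      refine ⟨-n, ?_⟩
      push_cast
      ring
    rw [h1, h2]
    simp
  have e : ∀ s : ℝ, Complex.exp (-(Complex.I * n * s)) * (deriv y s + Complex.I * c * y s)
      = (Complex.exp (-(Complex.I * n * s)) * (-(Complex.I * n)) * y s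
        + Complex.exp (-(Complex.I * n * s)) * deriv y s)
        + Complex.I * (n + c) * (Complex.exp (-(Complex.I * n * s)) * y s) := by
    intro s
    ring
  simp_rw [e]
  rw [intervalIntegral.integral_add (Continuous.intervalIntegrable (by fun_prop) _ _)
    (Continuous.intervalIntegrable (by fun_prop) _ _), key, zero_add,
    intervalIntegral.integral_const_mul]

private theorem wi_nc (y : ℝ → ℂ) (hy : ContDiff ℝ 1 y) (hp : ∀ s, y (s + 2 * Real.pi) = y s) (c : ℝ) :
    HasSum (fun n : ℤ => (n + c) ^ 2 * ‖∫ s in (0 : ℝ)..(2 * Real.pi), Complex.exp (-(Complex.I * n * s)) * y s‖ ^ 2)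
      (2 * Real.pi * ∫ s in (0 : ℝ)..(2 * Real.pi),
        (Complex.normSq (deriv y s) + 2 * c * cr (y s) (deriv y s) + c ^ 2 * Complex.normSq (y s))) := by
  have hyc : Continuous y := hy.continuous
  have hdc : Continuous (deriv y) := hy.continuous_deriv le_rfl
  have h := wi_pars (fun s => deriv y s + Complex.I * c * y s) (by fun_prop)
  simp_rw [wi_der y hy hp c] at h
  have e1 : ∀ n : ℤ, ‖Complex.I * (n + c) * ∫ s in (0 : ℝ)..(2 * Real.pi), Complex.exp (-(Complex.I * n * s)) * y s‖ ^ 2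
      = (n + c) ^ 2 * ‖∫ s in (0 : ℝ)..(2 * Real.pi), Complex.exp (-(Complex.I * n * s)) * y s‖ ^ 2 := by
    intro n
    rw [norm_mul, norm_mul, Complex.norm_I, one_mul, mul_pow]
    congr 1
    have : ((n : ℂ) + (c : ℂ)) = (((n : ℝ) + c : ℝ) : ℂ) := by push_cast; ring
    rw [this, Complex.norm_real, Real.norm_eq_abs, sq_abs]
  have e2 : ∀ s : ℝ, ‖deriv y s + Complex.I * c * y s‖ ^ 2
      = Complex.normSq (deriv y s) + 2 * c * cr (y s) (deriv y s) + c ^ 2 * Complex.normSq (y s) := by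
    intro s
    rw [← Complex.normSq_eq_norm_sq, Complex.normSq_apply, Complex.normSq_apply, Complex.normSq_apply]
    simp only [cr, Complex.add_re, Complex.add_im, Complex.mul_re, Complex.mul_im, Complex.I_re, Complex.I_im,
      Complex.ofReal_re, Complex.ofReal_im]
    ring
  simp_rw [e1, e2] at h
  exact h

private theorem wi_lin (y : ℝ → ℂ) (hy : ContDiff ℝ 1 y) (hp : ∀ s, y (s + 2 * Real.pi) = y s) (c : ℝ) :
    HasSum (fun n : ℤ => (n + c) ^ 2 * ‖∫ s in (0 : ℝ)..(2 * Real.pi), Complex.exp (-(Complex.I * n * s)) * y s‖ ^ 2)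
      (2 * Real.pi * ((∫ s in (0 : ℝ)..(2 * Real.pi), Complex.normSq (deriv y s))
        + 2 * c * (∫ s in (0 : ℝ)..(2 * Real.pi), cr (y s) (deriv y s))
        + c ^ 2 * (∫ s in (0 : ℝ)..(2 * Real.pi), Complex.normSq (y s)))) := by
  have hyc : Continuous y := hy.continuous
  have hdc : Continuous (deriv y) := hy.continuous_deriv le_rfl
  have hcr : Continuous fun s => cr (y s) (deriv y s) := by
    unfold cr
    fun_prop
  have hny : Continuous fun s => Complex.normSq (y s) := Complex.continuous_normSq.comp hyc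
  have hnd : Continuous fun s => Complex.normSq (deriv y s) := Complex.continuous_normSq.comp hdc
  have hI : ∀ g : ℝ → ℝ, Continuous g → IntervalIntegrable g volume 0 (2 * Real.pi) :=
    fun g hg => hg.intervalIntegrable _ _
  have ex : ∫ s in (0 : ℝ)..(2 * Real.pi),
        (Complex.normSq (deriv y s) + 2 * c * cr (y s) (deriv y s) + c ^ 2 * Complex.normSq (y s))
      = (∫ s in (0 : ℝ)..(2 * Real.pi), Complex.normSq (deriv y s))
        + 2 * c * (∫ s in (0 : ℝ)..(2 * Real.pi), cr (y s) (deriv y s))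
        + c ^ 2 * (∫ s in (0 : ℝ)..(2 * Real.pi), Complex.normSq (y s)) := by
    rw [intervalIntegral.integral_add (hI _ (by fun_prop)) (hI _ (by fun_prop)),
      intervalIntegral.integral_add (hI _ (by fun_prop)) (hI _ (by fun_prop)),
      intervalIntegral.integral_const_mul, intervalIntegral.integral_const_mul]
  rw [← ex]
  exact wi_nc y hy hp c


theorem wirt (y : ℝ → ℂ) (hy : ContDiff ℝ 1 y) (hp : ∀ s, y (s + 2 * Real.pi) = y s) :
    ∫ s in (0 : ℝ)..(2 * Real.pi), cr (y s) (deriv y s)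
      ≤ ∫ s in (0 : ℝ)..(2 * Real.pi), Complex.normSq (deriv y s) := by
  have hpi : (0 : ℝ) < 2 * Real.pi := by positivity
  have S := ((wi_lin y hy hp 0).add ((wi_lin y hy hp 1).mul_left (-(1 : ℝ) / 4))).add
    ((wi_lin y hy hp (-1)).mul_left ((1 : ℝ) / 4))
  have hnn := S.nonneg (fun n => by
    have e : ∀ F : ℝ, ((n : ℝ) + 0) ^ 2 * F + -(1 : ℝ) / 4 * (((n : ℝ) + 1) ^ 2 * F)
        + (1 : ℝ) / 4 * (((n : ℝ) + -1) ^ 2 * F) = ((n : ℝ) ^ 2 - n) * F := by
      intro F
      ring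
    rw [e]
    refine mul_nonneg ?_ (sq_nonneg _)
    have h1 : n ≤ n ^ 2 := Int.le_self_sq n
    have h2 : (n : ℝ) ≤ (n : ℝ) ^ 2 := by exact_mod_cast h1
    linarith)
  have e2 : ∀ P Q W : ℝ, 2 * Real.pi * (P + 2 * 0 * Q + 0 ^ 2 * W)
      + -(1 : ℝ) / 4 * (2 * Real.pi * (P + 2 * 1 * Q + 1 ^ 2 * W))
      + (1 : ℝ) / 4 * (2 * Real.pi * (P + 2 * (-1) * Q + (-1) ^ 2 * W))
      = 2 * Real.pi * (P - Q) := by
    intro P Q W
    ring
  rw [e2] at hnn
  have := nonneg_of_mul_nonneg_right hnn hpi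
  linarith

end Pool.Agent.H1.BS
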