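/-
Core: circles fill the region between the 3-periodic and the 2-periodic circle => support function of a disc.
PROOF.  X from tri_exists (circle_C1, circle_gap), half_circle, q from q_exists, hopf_s, id_int, sum_sin_ge, pointwise, wirt:
  0 >= int (sum eb - pi cr q q') >= int (4 |q'|^2 - pi cr q q') >= (4 - pi) int |q'|^2, so q' = 0 (continuous), q = q0; every v is ps X s (IdB_pssurj), h' v = qt q0 v, h - qn q0 constant.
-/
import Pool.Agent.H1.BS.W2
import Pool.Agent.H1.BS.Cv
import Pool.Agent.H1.BS.Ql
import Pool.Agent.H1.BS.Rr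
import Pool.Agent.H1.BS.Idi
import Pool.Agent.H1.BS.Ac
import Pool.Agent.H1.BS.Pv
import Pool.Agent.H1.BS.Wi
import Pool.Agent.H1.BP.Core

set_option autoImplicit false

namespace Pool.Agent.H1.BS

open Pool.Agent.H1.BP MeasureTheory

variable {h : ℝ → ℝ}

private theorem Co_ebc {X : ℝ → ℝ} (hX : Tri X) {q' : ℝ → ℂ} (hq' : Continuous q') (c : ℝ) :
    Continuous (fun s => eb X (q' s) (s + c)) := by
  have hpc : Continuous (ps X) :=
    continuous_iff_continuousAt.2 (fun s => (IdB_ps hX s).continuousAt)
  have hdc : Continuous (dd X) :=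
    continuous_iff_continuousAt.2 (fun s => (IdB_dd hX s).continuousAt)
  have hXc := IdB_Xc hX
  have hd : deriv (ps X) = fun s => (deriv X (s + 2 * Real.pi) + deriv X s) / 2 :=
    funext fun s => (IdB_ps hX s).deriv
  have hdpc : Continuous (deriv (ps X)) := by
    rw [hd]
    exact ((hXc.comp (continuous_add_const _)).add hXc).div_const 2
  have hpos : ∀ s, deriv (ps X) s ≠ 0 := by
    intro s
    rw [hd]
    have h1 := hX.pos s
    have h2 := hX.pos (s + 2 * Real.pi)
    have : 0 < (deriv X (s + 2 * Real.pi) + deriv X s) / 2 := by linarith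
    exact this.ne'
  have hsh : Continuous (fun s : ℝ => s + c) := continuous_add_const c
  have h1 : Continuous (fun s => ps X (s + c)) := hpc.comp hsh
  have h2 : Continuous (fun s => dd X (s + c)) := hdc.comp hsh
  have h3 : Continuous (fun s => deriv (ps X) (s + c)) := hdpc.comp hsh
  have hre : Continuous (fun s => (q' s).re) := Complex.continuous_re.comp hq'
  have him : Continuous (fun s => (q' s).im) := Complex.continuous_im.comp hq'
  have hcf : Continuous (fun s => cf (dd X (s + c))) := by
    unfold cf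
    exact ((continuous_const.sub (continuous_const.mul h2)).add
      (Real.continuous_sin.comp (continuous_const.mul h2)))
  have hqt : Continuous (fun s => qt (q' s) (ps X (s + c))) := by
    unfold qt
    exact (him.mul (Real.continuous_cos.comp h1)).sub (hre.mul (Real.continuous_sin.comp h1))
  unfold eb
  exact (hcf.mul (hqt.pow 2)).div h3 fun s => hpos _

theorem core_b (hs : Supp h) {f f2 : ℝ → ℝ} (hf : Circle h f) (h3 : ∀ x, f (f (f x)) = x + 2 * Real.pi)
    (hf2 : Circle h f2) (h2 : ∀ x, f2 (f2 x) = x + 2 * Real.pi)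
    (hfill : ∀ x y, f x < y → y < f2 x → ∃ F, Circle h F ∧ F x = y) :
    ∃ (q : ℂ) (c : ℝ), ∀ x, h x = qn q x + c := by
  obtain ⟨hfC, hfp⟩ := circle_C1 hs hf h3
  obtain ⟨X, hX, hXf⟩ := tri_exists f hfC hfp h3 (circle_gap hs hf h3)
  obtain ⟨hf2', m, hm⟩ := half_circle hs hf2 h2
  obtain ⟨q, hqC, hq, hqt⟩ := q_exists hs hf hX hXf
  have hr := fun s => rr_per hf hXf hq hqt s
  have hT := fun s => sum_T hs hf hX hXf s
  have hH := hopf_s hs hf h3 hX hXf hf2 hf2' hfill
  rw [id_int hs hX hqC hq hqt hr hT] at hH
  have hq'c : Continuous (deriv q) := hqC.continuous_deriv le_rfl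
  have hqc : Continuous q := hqC.continuous
  have hre : Continuous (fun s => (q s).re) := Complex.continuous_re.comp hqc
  have him : Continuous (fun s => (q s).im) := Complex.continuous_im.comp hqc
  have hre' : Continuous (fun s => (deriv q s).re) := Complex.continuous_re.comp hq'c
  have him' : Continuous (fun s => (deriv q s).im) := Complex.continuous_im.comp hq'c
  have ccr : Continuous (fun s => cr (q s) (deriv q s)) := by
    unfold cr
    exact (hre.mul him').sub (him.mul hre')
  have cns : Continuous (fun s => Complex.normSq (deriv q s)) := Complex.continuous_normSq.comp hq'c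
  have e0 : Continuous (fun s => eb X (deriv q s) s) := by
    have := Co_ebc hX hq'c 0
    simpa only [add_zero] using this
  have e1 := Co_ebc hX hq'c (2 * Real.pi)
  have e2 := Co_ebc hX hq'c (4 * Real.pi)
  have hpi : (0 : ℝ) ≤ 2 * Real.pi := by positivity
  have c1 : Continuous (fun s => 4 * Complex.normSq (deriv q s) - Real.pi * cr (q s) (deriv q s)) :=
    (continuous_const.mul cns).sub (continuous_const.mul ccr)
  have c2 : Continuous (fun s => eb X (deriv q s) s + eb X (deriv q s) (s + 2 * Real.pi)
          + eb X (deriv q s) (s + 4 * Real.pi) - Real.pi * cr (q s) (deriv q s)) :=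
    ((e0.add e1).add e2).sub (continuous_const.mul ccr)
  have hle : ∫ s in (0 : ℝ)..(2 * Real.pi), (4 * Complex.normSq (deriv q s) - Real.pi * cr (q s) (deriv q s))
      ≤ ∫ s in (0 : ℝ)..(2 * Real.pi), (eb X (deriv q s) s + eb X (deriv q s) (s + 2 * Real.pi)
          + eb X (deriv q s) (s + 4 * Real.pi) - Real.pi * cr (q s) (deriv q s)) := by
    refine intervalIntegral.integral_mono_on hpi (c1.intervalIntegrable _ _) (c2.intervalIntegrable _ _) ?_
    intro s _
    have h1 := pointwise hX s (sum_sin_ge hs hm hf hX hXf hq hqt hr s) (deriv q s)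
    linarith
  have hw := wirt q hqC hq
  have hsplit : ∫ s in (0 : ℝ)..(2 * Real.pi), (4 * Complex.normSq (deriv q s) - Real.pi * cr (q s) (deriv q s))
      = 4 * (∫ s in (0 : ℝ)..(2 * Real.pi), Complex.normSq (deriv q s))
        - Real.pi * ∫ s in (0 : ℝ)..(2 * Real.pi), cr (q s) (deriv q s) := by
    have i1 : Continuous (fun s => 4 * Complex.normSq (deriv q s)) := continuous_const.mul cns
    have i2 : Continuous (fun s => Real.pi * cr (q s) (deriv q s)) := continuous_const.mul ccr
    have i3 := intervalIntegral.integral_sub (i1.intervalIntegrable (μ := volume) 0 (2 * Real.pi))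
      (i2.intervalIntegrable (μ := volume) 0 (2 * Real.pi))
    rw [i3, intervalIntegral.integral_const_mul, intervalIntegral.integral_const_mul]
  rw [hsplit] at hle
  have hnn : 0 ≤ ∫ s in (0 : ℝ)..(2 * Real.pi), Complex.normSq (deriv q s) :=
    intervalIntegral.integral_nonneg hpi fun s _ => Complex.normSq_nonneg _
  have hpi4 := Real.pi_lt_four
  have hpip := Real.pi_pos
  have hzero : ∫ s in (0 : ℝ)..(2 * Real.pi), Complex.normSq (deriv q s) = 0 := by
    have h1 : Real.pi * (∫ s in (0 : ℝ)..(2 * Real.pi), cr (q s) (deriv q s))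
        ≤ Real.pi * ∫ s in (0 : ℝ)..(2 * Real.pi), Complex.normSq (deriv q s) :=
      mul_le_mul_of_nonneg_left hw hpip.le
    nlinarith
  -- the derivative vanishes on `[0, 2 pi]`
  have hq'0 : ∀ s ∈ Set.Icc (0 : ℝ) (2 * Real.pi), deriv q s = 0 := by
    intro s hsI
    by_contra hne
    have hpos : 0 < Complex.normSq (deriv q s) := Complex.normSq_pos.2 hne
    have := intervalIntegral.integral_pos (by positivity : (0 : ℝ) < 2 * Real.pi) cns.continuousOn
      (fun x _ => Complex.normSq_nonneg _) ⟨s, hsI, hpos⟩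
    linarith
  have hq'p : ∀ s, deriv q (s + 2 * Real.pi) = deriv q s := by
    intro s
    have h1 : (fun t => q (t + 2 * Real.pi)) = q := funext hq
    have h2 := deriv_comp_add_const q (2 * Real.pi) s
    rw [h1] at h2
    exact h2.symm
  have hall : ∀ s, deriv q s = 0 := by
    intro s
    have hP : Function.Periodic (deriv q) (2 * Real.pi) := hq'p
    obtain ⟨t, ht, hte⟩ := hP.exists_mem_Ico₀ (by positivity) s
    rw [hte]
    exact hq'0 t ⟨ht.1, ht.2.le⟩
  have hconst : ∀ s, q s = q 0 := fun s =>
    is_const_of_deriv_eq_zero (hqC.differentiable one_ne_zero) hall s 0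
  have hh' : ∀ v, deriv h v = qt (q 0) v := by
    intro v
    obtain ⟨s, hsv⟩ := IdB_pssurj hX v
    rw [← hsv, hqt s, hconst s]
  have hqn : ∀ v, HasDerivAt (fun v => qn (q 0) v) (qt (q 0) v) v := by
    intro v
    have h1 := ((Real.hasDerivAt_cos v).const_mul (q 0).re).add ((Real.hasDerivAt_sin v).const_mul (q 0).im)
    refine HasDerivAt.congr_deriv h1 ?_
    unfold qt
    ring
  have hdiff : ∀ v, HasDerivAt (fun v => h v - qn (q 0) v) 0 v := by
    intro v
    have h1 := (hd0 hs v).sub (hqn v)
    rw [hh' v, sub_self] at h1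
    exact h1
  refine ⟨q 0, h 0 - qn (q 0) 0, fun x => ?_⟩
  have h1 := is_const_of_deriv_eq_zero (f := fun v => h v - qn (q 0) v)
    (fun v => (hdiff v).differentiableAt) (fun v => (hdiff v).deriv) x 0
  have h2 : h x - qn (q 0) x = h 0 - qn (q 0) 0 := h1
  linarith

end Pool.Agent.H1.BS
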