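/-
ROW Cs.  The core theorem in boundary coordinates.
PROOF.  Adapt Pool/Agent/H50/BQ/CoS.lean (core_s): fc, fc2 the circles of g, g2 (brg); fc^3 = id + 2pi, fc2^2 = id + 2pi as there.  Filling: let fc x < y < fc2 x; ψ = (x+y)/2, d = (y-x)/2, s = σ ψ.
 g s < d: as in core_s (there d < g s is derived from y < fc x; here the mirror argument from fc x < y): if d <= g s: with X s1 = x (X s := τ s - pi/2 - g s strictly increasing, Y s := τ s - pi/2 + g s strictly
 increasing, fc (X s) = Y s):  X s = ψ - g s <= ψ - d = x = X s1 so s <= s1, and Y s = ψ + g s >= ψ + d = y > fc x = Y s1 so s > s1: contradiction.  d < g2 s: exactly the argument of core_s for g2.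
 Then hfill gives g', its circle F has F x = y.  core_b gives h = qn q + c.  Then γ (σ ψ) = (h + i h') e^{iψ} = q + c e^{iψ} (qn q ψ + i qt q ψ = q e^{-iψ}), c > 0 since h ψ + h (ψ+pi) = 2c > 0 (width_pos),
 so frontier T.Y = range γ (T.bdry) = sphere q c (σ surjective for one inclusion; for the other: a point q + c e^{iψ} is γ (σ ψ)).
-/
import Mathlib
import Pool.Agent.H50.BQ.CoS
import Pool.Agent.H50.BQ.Ell
import Pool.Agent.H50.BQ.Sfx
import Pool.Agent.H1.BS.Co

set_option autoImplicit false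

namespace Pool.Agent.H1.BS

open Set Filter Topology Pool.Agent.H46.BL Pool.Agent.H50.BQ

variable {T : Table}

/-- the boundary of the table is a circle -/
def Disc (T : Table) : Prop := ∃ (o : ℂ) (r : ℝ), 0 < r ∧ frontier T.Y = Metric.sphere o r

private lemma cs_surj {h σ : ℝ → ℝ} (hs : Sf T h σ) {g : ℝ → ℝ} (hg : T.Leaf g) (x : ℝ) :
    ∃ ψ, ψ - g (σ ψ) = x := by
  have hF : Continuous (fun ψ => ψ - g (σ ψ)) := continuous_id.sub (hg.cont.comp hs.cont)
  have h1 := (hg.mem (σ x)).1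
  have h2 := (hg.mem (σ (x + Real.pi))).2
  have hle : x ≤ x + Real.pi := by linarith [Real.pi_pos]
  have hmem : x ∈ Icc ((fun ψ => ψ - g (σ ψ)) x) ((fun ψ => ψ - g (σ ψ)) (x + Real.pi)) :=
    ⟨by show x - g (σ x) ≤ x; linarith, by show x ≤ x + Real.pi - g (σ (x + Real.pi)); linarith⟩
  obtain ⟨ψ, _, hψ⟩ := intermediate_value_Icc hle hF.continuousOn hmem
  exact ⟨ψ, hψ⟩

theorem disc_of_fill (hκ : ∀ s, 0 < deriv T.τ s) {g f g2 f2 : ℝ → ℝ} (hl : Lf T g f)
    (h3 : ∀ s, f (f (f s)) = s + T.L) (hl2 : Lf T g2 f2) (h2 : ∀ s, f2 (f2 s) = s + T.L)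
    (hfill : ∀ s θ, g s < θ → θ < g2 s → ∃ g', T.Leaf g' ∧ g' s = θ) : Disc T := by
  obtain ⟨h, σ, hs⟩ := sf_exists T hκ
  obtain ⟨fc, hfc, hfc1, hfc2⟩ := brg hκ hs hl
  obtain ⟨fd, hfd, hfd1, hfd2⟩ := brg hκ hs hl2
  have hg := hl.leaf
  have hg2 := hl2.leaf
  have h3' : ∀ x, fc (fc (fc x)) = x + 2 * Real.pi := by
    intro x
    obtain ⟨ψ, hψ⟩ := cs_surj hs hg x
    have e : x = T.τ (σ ψ) - Real.pi / 2 - g (σ ψ) := by rw [hs.tau]; linarith
    rw [e, hfc2, hfc2, hfc2, h3, T.turning, hg.per]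
    ring
  have h2' : ∀ x, fd (fd x) = x + 2 * Real.pi := by
    intro x
    obtain ⟨ψ, hψ⟩ := cs_surj hs hg2 x
    have e : x = T.τ (σ ψ) - Real.pi / 2 - g2 (σ ψ) := by rw [hs.tau]; linarith
    rw [e, hfd2, hfd2, h2, T.turning, hg2.per]
    ring
  have hcore : ∃ (q : ℂ) (c : ℝ), ∀ x, h x = qn q x + c := by
    refine core_b hs.supp hfc h3' hfd h2' ?_
    intro x y hxy hy
    have hτ := hs.tau ((x + y) / 2)
    have hlt1 : g (σ ((x + y) / 2)) < (y - x) / 2 := by
      by_contra hcon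
      push Not at hcon
      obtain ⟨ψ1, hψ1⟩ := cs_surj hs hg x
      have hfx : fc x = ψ1 + g (σ ψ1) := by rw [← hψ1, hfc1]
      have hτ1 := hs.tau ψ1
      have a1 : σ ((x + y) / 2) ≤ σ ψ1 := by
        rw [← (hl.dir' hκ).le_iff_le]
        show T.τ (σ ((x + y) / 2)) - g (σ ((x + y) / 2)) ≤ T.τ (σ ψ1) - g (σ ψ1)
        rw [hτ, hτ1]
        linarith
      have a2 : σ ψ1 < σ ((x + y) / 2) := by
        rw [← (hl.dir hκ).lt_iff_lt]
        show T.τ (σ ψ1) + g (σ ψ1) < T.τ (σ ((x + y) / 2)) + g (σ ((x + y) / 2))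
        rw [hτ, hτ1]
        rw [hfx] at hxy
        linarith
      exact absurd a1 (not_le.mpr a2)
    have hlt2 : (y - x) / 2 < g2 (σ ((x + y) / 2)) := by
      by_contra hcon
      push Not at hcon
      obtain ⟨ψ1, hψ1⟩ := cs_surj hs hg2 x
      have hfx : fd x = ψ1 + g2 (σ ψ1) := by rw [← hψ1, hfd1]
      have hτ1 := hs.tau ψ1
      have a1 : σ ψ1 ≤ σ ((x + y) / 2) := by
        rw [← (hl2.dir' hκ).le_iff_le]
        show T.τ (σ ψ1) - g2 (σ ψ1) ≤ T.τ (σ ((x + y) / 2)) - g2 (σ ((x + y) / 2))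
        rw [hτ, hτ1]
        linarith
      have a2 : σ ((x + y) / 2) < σ ψ1 := by
        rw [← (hl2.dir hκ).lt_iff_lt]
        show T.τ (σ ((x + y) / 2)) + g2 (σ ((x + y) / 2)) < T.τ (σ ψ1) + g2 (σ ψ1)
        rw [hτ, hτ1]
        rw [hfx] at hy
        linarith
      exact absurd a1 (not_le.mpr a2)
    obtain ⟨g', hg', hgs⟩ := hfill _ _ hlt1 hlt2
    obtain ⟨f', hl'⟩ := lf_exists hκ hg'
    obtain ⟨F, hF, hF1, _⟩ := brg hκ hs hl'
    refine ⟨F, hF, ?_⟩
    have h := hF1 ((x + y) / 2)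
    rw [hgs] at h
    have e1 : (x + y) / 2 - (y - x) / 2 = x := by ring
    have e2 : (x + y) / 2 + (y - x) / 2 = y := by ring
    rw [e1, e2] at h
    exact h
  obtain ⟨q, c, hq⟩ := hcore
  have hc : 0 < c := by
    have h1 := Pool.Agent.H1.BP.width_pos hs.supp 0
    rw [hq, hq] at h1
    unfold qn at h1
    rw [Real.cos_add_pi, Real.sin_add_pi] at h1
    linarith
  have hd : ∀ ψ, deriv h ψ = qt q ψ := by
    intro ψ
    have e : h = fun x => q.re * Real.cos x + q.im * Real.sin x + c := by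
      funext x
      rw [hq]
      rfl
    have h1 : HasDerivAt (fun x => q.re * Real.cos x + q.im * Real.sin x + c)
        (q.re * (-Real.sin ψ) + q.im * Real.cos ψ) ψ :=
      (((Real.hasDerivAt_cos ψ).const_mul q.re).add
        ((Real.hasDerivAt_sin ψ).const_mul q.im)).add_const c
    rw [e, h1.deriv]
    unfold qt
    ring
  have hγ : ∀ ψ, T.γ (σ ψ) = q + (c : ℂ) * ex ψ := by
    intro ψ
    rw [hs.gam, hd, hq]
    have h1 := Real.sin_sq_add_cos_sq ψ
    have hre : (ex ψ).re = Real.cos ψ := Complex.exp_ofReal_mul_I_re ψ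
    have him : (ex ψ).im = Real.sin ψ := Complex.exp_ofReal_mul_I_im ψ
    apply Complex.ext
    · simp only [Complex.mul_re, Complex.add_re, Complex.add_im, Complex.ofReal_re,
        Complex.ofReal_im, Complex.mul_im, Complex.I_re, Complex.I_im, hre, him, qn, qt]
      linear_combination q.re * h1
    · simp only [Complex.mul_re, Complex.add_re, Complex.add_im, Complex.ofReal_re,
        Complex.ofReal_im, Complex.mul_im, Complex.I_re, Complex.I_im, hre, him, qn, qt]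
      linear_combination q.im * h1
  have hn : ∀ ψ, ‖(c : ℂ) * ex ψ‖ = c := by
    intro ψ
    unfold ex
    rw [norm_mul, Complex.norm_exp_ofReal_mul_I, mul_one, Complex.norm_real, Real.norm_eq_abs,
      abs_of_pos hc]
  refine ⟨q, c, hc, ?_⟩
  rw [T.bdry]
  ext z
  rw [mem_range, Metric.mem_sphere, dist_eq_norm]
  constructor
  · rintro ⟨s, rfl⟩
    obtain ⟨ψ, rfl⟩ := hs.surj s
    rw [hγ, add_sub_cancel_left, hn]
  · intro hz
    refine ⟨σ (Complex.arg (z - q)), ?_⟩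
    rw [hγ]
    have h1 := Complex.norm_mul_exp_arg_mul_I (z - q)
    rw [hz] at h1
    unfold ex
    rw [h1]
    ring

end Pool.Agent.H1.BS
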