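/-
The angular momentum about the centre of a disc is a first integral that is regular everywhere.
-/
import Mathlib
import Pool.Agent.H1.BR.Defs

set_option autoImplicit false

namespace Pool.Agent.H1.BS

open Set Filter Topology Pool.Agent.H46.BL
open scoped ContDiff

/-- the angular momentum about `o` -/
def am (o q p : ℂ) : ℝ := (q.re - o.re) * p.im - (q.im - o.im) * p.re

theorem am_smooth (o : ℂ) : ContDiff ℝ ∞ (fun z : ℂ × ℂ => am o z.1 z.2) := by
  have hre : ContDiff ℝ ∞ (fun z : ℂ => z.re) := Complex.reCLM.contDiff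
  have him : ContDiff ℝ ∞ (fun z : ℂ => z.im) := Complex.imCLM.contDiff
  have h1 : ContDiff ℝ ∞ (fun z : ℂ × ℂ => z.1.re) := hre.comp contDiff_fst
  have h2 : ContDiff ℝ ∞ (fun z : ℂ × ℂ => z.1.im) := him.comp contDiff_fst
  have h3 : ContDiff ℝ ∞ (fun z : ℂ × ℂ => z.2.re) := hre.comp contDiff_snd
  have h4 : ContDiff ℝ ∞ (fun z : ℂ × ℂ => z.2.im) := him.comp contDiff_snd
  unfold am
  exact ((h1.sub contDiff_const).mul h4).sub ((h2.sub contDiff_const).mul h3)

theorem am_perp (T : Table) {o : ℂ} {r : ℝ} (hD : frontier T.Y = Metric.sphere o r) (s : ℝ) :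
    ((T.γ s).re - o.re) * Real.cos (T.τ s) + ((T.γ s).im - o.im) * Real.sin (T.τ s) = 0 := by
  have hsph : ∀ t, ((T.γ t).re - o.re) ^ 2 + ((T.γ t).im - o.im) ^ 2 = r ^ 2 := by
    intro t
    have h1 : T.γ t ∈ Metric.sphere o r := by
      rw [← hD, T.bdry]
      exact ⟨t, rfl⟩
    have h2 : ‖T.γ t - o‖ = r := by
      rw [← dist_eq_norm]
      exact h1
    rw [← h2, ← Complex.normSq_eq_norm_sq, Complex.normSq_apply, Complex.sub_re, Complex.sub_im]
    ring
  have hd := T.tangent s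
  have hre : HasDerivAt (fun t => (T.γ t).re) (Real.cos (T.τ s)) s := by
    have h := (Complex.reCLM.hasFDerivAt (x := T.γ s)).comp_hasDerivAt s hd
    have e : Complex.reCLM (ex (T.τ s)) = Real.cos (T.τ s) := by
      show (ex (T.τ s)).re = _
      unfold ex
      exact Complex.exp_ofReal_mul_I_re _
    rw [e] at h
    exact h
  have him : HasDerivAt (fun t => (T.γ t).im) (Real.sin (T.τ s)) s := by
    have h := (Complex.imCLM.hasFDerivAt (x := T.γ s)).comp_hasDerivAt s hd
    have e : Complex.imCLM (ex (T.τ s)) = Real.sin (T.τ s) := by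
      show (ex (T.τ s)).im = _
      unfold ex
      exact Complex.exp_ofReal_mul_I_im _
    rw [e] at h
    exact h
  have h1 := ((hre.sub_const o.re).pow 2).add ((him.sub_const o.im).pow 2)
  have h2 : (fun t => ((T.γ t).re - o.re) ^ 2 + ((T.γ t).im - o.im) ^ 2) = fun _ => r ^ 2 := funext hsph
  have h3 : HasDerivAt (fun t => ((T.γ t).re - o.re) ^ 2 + ((T.γ t).im - o.im) ^ 2) 0 s := by
    rw [h2]
    exact hasDerivAt_const s _
  have h4 := h1.unique h3
  norm_num at h4
  linarith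

theorem am_integral (T : Table) {o : ℂ} {r : ℝ} (hD : frontier T.Y = Metric.sphere o r) :
    T.Integral (am o) where
  smooth := (am_smooth o).contDiffOn
  flow := by
    intro q _ p _ t _
    unfold am
    simp only [Complex.add_re, Complex.add_im, Complex.re_ofReal_mul, Complex.im_ofReal_mul]
    ring
  refl := by
    intro s p _
    have h := am_perp T hD s
    have e1 : (ex (2 * T.τ s)).re = Real.cos (2 * T.τ s) := by
      unfold ex
      exact Complex.exp_ofReal_mul_I_re _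
    have e2 : (ex (2 * T.τ s)).im = Real.sin (2 * T.τ s) := by
      unfold ex
      exact Complex.exp_ofReal_mul_I_im _
    have hc : Real.cos (2 * T.τ s) = 2 * Real.cos (T.τ s) ^ 2 - 1 := Real.cos_two_mul _
    have hs : Real.sin (2 * T.τ s) = 2 * Real.sin (T.τ s) * Real.cos (T.τ s) := Real.sin_two_mul _
    have hcs := Real.sin_sq_add_cos_sq (T.τ s)
    unfold am
    rw [Complex.mul_re, Complex.mul_im, Complex.conj_re, Complex.conj_im, e1, e2, hc, hs]
    linear_combination (2 * Real.sin (T.τ s) * p.re - 2 * Real.cos (T.τ s) * p.im) * h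
      - 2 * ((T.γ s).im - o.im) * p.re * hcs

theorem am_path (z w u v : ℂ) : HasDerivAt (fun t : ℝ => ((z + t * u, w + t * v) : ℂ × ℂ)) (u, v) 0 := by
  have h1 : HasDerivAt (fun t : ℝ => (t : ℂ) * u) u 0 := by
    have h := (Complex.ofRealCLM.hasDerivAt (x := (0 : ℝ))).mul_const u
    have e : Complex.ofRealCLM 1 * u = u := by
      show ((1 : ℝ) : ℂ) * u = u
      rw [Complex.ofReal_one, one_mul]
    rw [e] at h
    exact h
  have h2 : HasDerivAt (fun t : ℝ => (t : ℂ) * v) v 0 := by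
    have h := (Complex.ofRealCLM.hasDerivAt (x := (0 : ℝ))).mul_const v
    have e : Complex.ofRealCLM 1 * v = v := by
      show ((1 : ℝ) : ℂ) * v = v
      rw [Complex.ofReal_one, one_mul]
    rw [e] at h
    exact h
  exact (h1.const_add z).prodMk (h2.const_add w)

theorem am_dir {f : ℂ × ℂ → ℝ} {z w u v : ℂ} (hf : DifferentiableAt ℝ f (z, w)) {c : ℝ}
    (hc : HasDerivAt (fun t : ℝ => f (z + t * u, w + t * v)) c 0) : fderiv ℝ f (z, w) (u, v) = c := by
  have h0 : ((z + ((0 : ℝ) : ℂ) * u, w + ((0 : ℝ) : ℂ) * v) : ℂ × ℂ) = (z, w) := by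
    simp
  have hf' : HasFDerivAt f (fderiv ℝ f (z, w)) ((z + ((0 : ℝ) : ℂ) * u, w + ((0 : ℝ) : ℂ) * v) : ℂ × ℂ) := by
    rw [h0]
    exact hf.hasFDerivAt
  have h1 := hf'.comp_hasDerivAt (0 : ℝ) (am_path z w u v)
  exact h1.unique hc

theorem am_regular (o z w : ℂ) (hw : w ≠ 0) : Pool.Agent.H1.BR.Regular (am o) (z, w) := by
  unfold Pool.Agent.H1.BR.Regular
  rw [LinearIndependent.pair_iff]
  intro a b hab
  have hpos : 0 < Complex.normSq w := Complex.normSq_pos.2 hw
  have hdF : DifferentiableAt ℝ (fun z : ℂ × ℂ => am o z.1 z.2) (z, w) :=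
    (am_smooth o).differentiable (by simp) _
  have hsm : ContDiff ℝ ∞ (fun z : ℂ × ℂ => ‖z.2‖ ^ 2 / 2) := (contDiff_snd.norm_sq ℝ).div_const 2
  have hdH : DifferentiableAt ℝ (fun z : ℂ × ℂ => ‖z.2‖ ^ 2 / 2) (z, w) := hsm.differentiable (by simp) _
  -- the direction `(u, 0)`
  have f1 : fderiv ℝ (fun z : ℂ × ℂ => am o z.1 z.2) (z, w) ((⟨w.im, -w.re⟩ : ℂ), 0) = Complex.normSq w := by
    refine am_dir hdF ?_
    have e : (fun t : ℝ => am o (z + t * (⟨w.im, -w.re⟩ : ℂ)) (w + t * 0)) =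
        fun t : ℝ => am o z w + t * Complex.normSq w := by
      funext t
      unfold am
      rw [Complex.normSq_apply]
      simp only [Complex.add_re, Complex.add_im, Complex.re_ofReal_mul, Complex.im_ofReal_mul, mul_zero, add_zero]
      ring
    show HasDerivAt (fun t : ℝ => am o (z + t * (⟨w.im, -w.re⟩ : ℂ)) (w + t * 0)) (Complex.normSq w) 0
    rw [e]
    have h := ((hasDerivAt_id (0 : ℝ)).mul_const (Complex.normSq w)).const_add (am o z w)
    rw [one_mul] at h
    exact h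
  have g1 : fderiv ℝ (fun z : ℂ × ℂ => ‖z.2‖ ^ 2 / 2) (z, w) ((⟨w.im, -w.re⟩ : ℂ), 0) = 0 := by
    refine am_dir hdH ?_
    show HasDerivAt (fun t : ℝ => ‖w + t * 0‖ ^ 2 / 2) 0 0
    have e : (fun t : ℝ => ‖w + (t : ℂ) * 0‖ ^ 2 / 2) = fun _ : ℝ => ‖w‖ ^ 2 / 2 := by
      funext t
      rw [mul_zero, add_zero]
    rw [e]
    exact hasDerivAt_const _ _
  have g2 : fderiv ℝ (fun z : ℂ × ℂ => ‖z.2‖ ^ 2 / 2) (z, w) (0, w) = Complex.normSq w := by
    refine am_dir hdH ?_
    show HasDerivAt (fun t : ℝ => ‖w + t * w‖ ^ 2 / 2) (Complex.normSq w) 0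
    have e : (fun t : ℝ => ‖w + (t : ℂ) * w‖ ^ 2 / 2) = fun t : ℝ => (1 + t) ^ 2 * (Complex.normSq w / 2) := by
      funext t
      have h1 : w + (t : ℂ) * w = ((1 + t : ℝ) : ℂ) * w := by
        push_cast
        ring
      rw [h1, norm_mul, Complex.norm_real, mul_pow, Real.norm_eq_abs, sq_abs, Complex.normSq_eq_norm_sq]
      ring
    rw [e]
    have h := (((hasDerivAt_id (0 : ℝ)).const_add 1).pow 2).mul_const (Complex.normSq w / 2)
    refine h.congr_deriv ?_
    norm_num
    ring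
  have k1 := congrArg (fun A : (ℂ × ℂ) →L[ℝ] ℝ => A ((⟨w.im, -w.re⟩ : ℂ), 0)) hab
  have k2 := congrArg (fun A : (ℂ × ℂ) →L[ℝ] ℝ => A (0, w)) hab
  simp only [ContinuousLinearMap.add_apply, ContinuousLinearMap.smul_apply, ContinuousLinearMap.zero_apply,
    f1, g1, g2, smul_eq_mul, mul_zero, add_zero] at k1 k2
  have ha : a = 0 := by
    rcases mul_eq_zero.1 k1 with h | h
    · exact h
    · exact absurd h hpos.ne'
  refine ⟨ha, ?_⟩
  rw [ha, zero_mul, zero_add] at k2
  rcases mul_eq_zero.1 k2 with h | h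
  · exact h
  · exact absurd h hpos.ne'

end Pool.Agent.H1.BS
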