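/-
ROW Fl.  Circles of periodic points for all rationals in [1/3, 1/2] fill the region between the circles 1/3 and 1/2.
PROOF.  Copy of Pool/Agent/H50/BQ/Fil.lean (theorem fill) with the interval (0, 1/3] replaced by [1/3, 1/2] (0 < r there follows from 1/3 <= r); the set Rm contains 1/3 (no `shrink` needed), the set Rp
contains 1/2, the bounds b := G (1/3) (below) and G (1/2) (above).  hypothesis hr: for p q with 0 < p, q <= 3 p, 2 p <= q.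
(1/2 : ℚ).den = 2, num = 1; (1/3 : ℚ).den = 3.
-/
import Mathlib
import Pool.Agent.H50.BQ.Fil

set_option autoImplicit false

namespace Pool.Agent.H1.BS

open Set Filter Topology Pool.Agent.H46.BL Pool.Agent.H50.BQ

variable {T : Table}

theorem Fl_third {r : ℚ} (h : 1 / 3 ≤ r) : r.den ≤ 3 * r.num.toNat := by
  have hr : 0 < r := lt_of_lt_of_le (by norm_num) h
  have h1 : (0 : ℝ) < (r.den : ℝ) := by exact_mod_cast r.den_pos
  have h2 : 1 / 3 ≤ ((r.num.toNat : ℕ) : ℝ) / (r.den : ℝ) := by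
    rw [Fil_cast hr]
    have h3 : ((1 / 3 : ℚ) : ℝ) ≤ (r : ℝ) := by exact_mod_cast h
    push_cast at h3
    exact h3
  rw [le_div_iff₀ h1] at h2
  have h3 : (r.den : ℝ) ≤ (3 : ℝ) * (r.num.toNat : ℕ) := by linarith
  exact_mod_cast h3

theorem Fl_half {r : ℚ} (hr : 0 < r) (h : r ≤ 1 / 2) : 2 * r.num.toNat ≤ r.den := by
  have h1 : (0 : ℝ) < (r.den : ℝ) := by exact_mod_cast r.den_pos
  have h2 : ((r.num.toNat : ℕ) : ℝ) / (r.den : ℝ) ≤ 1 / 2 := by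
    rw [Fil_cast hr]
    have h3 : (r : ℝ) ≤ ((1 / 2 : ℚ) : ℝ) := by exact_mod_cast h
    push_cast at h3
    exact h3
  rw [div_le_iff₀ h1] at h2
  have h3 : (2 : ℝ) * (r.num.toNat : ℕ) ≤ (r.den : ℝ) := by linarith
  exact_mod_cast h3

theorem fill_between (hκ : ∀ s, 0 < deriv T.τ s)
    (hr : ∀ p q : ℕ, 0 < p → q ≤ 3 * p → 2 * p ≤ q → ∃ g f, Lf T g f ∧ ∀ s, f^[q] s = s + p * T.L) :
    ∃ g f g2 f2, Lf T g f ∧ (∀ s, f (f (f s)) = s + T.L) ∧ Lf T g2 f2 ∧ (∀ s, f2 (f2 s) = s + T.L) ∧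
      ∀ s θ, g s < θ → θ < g2 s → ∃ g', T.Leaf g' ∧ g' s = θ := by
  have hL : 0 < T.L := T.Lpos
  have hp0 : ∀ r : ℚ, 1 / 3 ≤ r → 0 < r := fun r h => lt_of_lt_of_le (by norm_num) h
  have hr' : ∀ r : ℚ, (1 / 3 ≤ r ∧ r ≤ 1 / 2) → ∃ g f : ℝ → ℝ, Lf T g f ∧
      ∀ s, f^[r.den] s = s + (r.num.toNat : ℕ) * T.L :=
    fun r h => hr _ _ (Fil_pos (hp0 r h.1)) (Fl_third h.1) (Fl_half (hp0 r h.1) h.2)
  choose! G F hGF using hr'
  have hord : ∀ r r' : ℚ, 1 / 3 ≤ r → r < r' → r' ≤ 1 / 2 → ∀ s, G r s < G r' s := by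
    intro r r' h0 h1 h2 s
    have k1 := hGF r ⟨h0, h1.le.trans h2⟩
    have k2 := hGF r' ⟨h0.trans h1.le, h2⟩
    exact ord hκ k1.1 k2.1 r.den_pos r'.den_pos k1.2 k2.2 (Fil_lt (hp0 r h0) ((hp0 r h0).trans h1) h1) s
  have hordle : ∀ r r' : ℚ, 1 / 3 ≤ r → r ≤ r' → r' ≤ 1 / 2 → ∀ s, G r s ≤ G r' s := by
    intro r r' h0 h1 h2 s
    rcases h1.eq_or_lt with rfl | h1
    · exact le_rfl
    · exact (hord r r' h0 h1 h2 s).le
  have hthird : (1 / 3 : ℚ) ≤ 1 / 3 ∧ (1 / 3 : ℚ) ≤ 1 / 2 := by norm_num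
  have hhalf : (1 / 3 : ℚ) ≤ 1 / 2 ∧ (1 / 2 : ℚ) ≤ 1 / 2 := by norm_num
  obtain ⟨hT1, hT2⟩ := hGF (1 / 3) hthird
  obtain ⟨hU1, hU2⟩ := hGF (1 / 2) hhalf
  refine ⟨G (1 / 3), F (1 / 3), G (1 / 2), F (1 / 2), hT1, fun s => ?_, hU1, fun s => ?_, fun s0 θ0 hθ hθ' => ?_⟩
  · have h := hT2 s
    have e0 : (1 / 3 : ℚ) = (((3 : ℕ) : ℚ)⁻¹) := by norm_num
    have e1 : (1 / 3 : ℚ).den = 3 := by rw [e0]; exact (Fil_inv le_rfl).2.2.1
    have e2 : (1 / 3 : ℚ).num.toNat = 1 := by rw [e0]; exact (Fil_inv le_rfl).2.2.2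
    rw [e1, e2, Nat.cast_one, one_mul] at h
    exact h
  · have h := hU2 s
    have e0 : (1 / 2 : ℚ) = (((2 : ℕ) : ℚ)⁻¹) := by norm_num
    have e1 : (1 / 2 : ℚ).den = 2 := by
      rw [e0]
      exact Rat.inv_natCast_den_of_pos (by norm_num)
    have e2 : (1 / 2 : ℚ).num.toNat = 1 := by
      rw [e0, Rat.inv_natCast_num_of_pos (by norm_num)]
      rfl
    rw [e1, e2, Nat.cast_one, one_mul] at h
    exact h
  obtain ⟨Rm, hRm⟩ : ∃ Rm : Set ℚ, ∀ r, r ∈ Rm ↔ (1 / 3 ≤ r ∧ r ≤ 1 / 2) ∧ G r s0 ≤ θ0 :=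
    ⟨{r | (1 / 3 ≤ r ∧ r ≤ 1 / 2) ∧ G r s0 ≤ θ0}, fun r => Iff.rfl⟩
  obtain ⟨Rp, hRp⟩ : ∃ Rp : Set ℚ, ∀ r, r ∈ Rp ↔ (1 / 3 ≤ r ∧ r ≤ 1 / 2) ∧ θ0 < G r s0 :=
    ⟨{r | (1 / 3 ≤ r ∧ r ≤ 1 / 2) ∧ θ0 < G r s0}, fun r => Iff.rfl⟩
  have hp3 : (1 / 2 : ℚ) ∈ Rp := (hRp _).2 ⟨hhalf, hθ'⟩
  have hm3 : (1 / 3 : ℚ) ∈ Rm := (hRm _).2 ⟨hthird, hθ.le⟩
  have hmp : ∀ r ∈ Rm, ∀ r' ∈ Rp, r < r' := by
    intro r h r' h'
    rw [hRm] at h
    rw [hRp] at h'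
    by_contra hcon
    push Not at hcon
    have := hordle r' r h'.1.1 hcon h.1.2 s0
    linarith [h.2, h'.2]
  have hmne : ∃ r1, r1 ∈ Rm := ⟨1 / 3, hm3⟩
  obtain ⟨r1, hr1⟩ := hmne
  have hr1' := (hRm r1).1 hr1
  -- the rotation number
  have hbdd : BddAbove ((fun r : ℚ => (r : ℝ)) '' Rm) := by
    refine ⟨((1 / 2 : ℚ) : ℝ), ?_⟩
    rintro _ ⟨r, h, rfl⟩
    have := ((hRm r).1 h).1.2
    show (r : ℝ) ≤ ((1 / 2 : ℚ) : ℝ)
    exact_mod_cast this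
  obtain ⟨w, hw⟩ : ∃ w, w = sSup ((fun r : ℚ => (r : ℝ)) '' Rm) := ⟨_, rfl⟩
  have hwm : ∀ r ∈ Rm, (r : ℝ) ≤ w := by
    intro r h
    rw [hw]
    exact le_csSup hbdd ⟨r, h, rfl⟩
  have hwp : ∀ r ∈ Rp, w ≤ (r : ℝ) := by
    intro r' h'
    rw [hw]
    refine csSup_le ⟨_, r1, hr1, rfl⟩ ?_
    rintro _ ⟨r, h, rfl⟩
    show (r : ℝ) ≤ (r' : ℝ)
    exact_mod_cast (hmp r h r' h').le
  have hwup : ∀ v : ℝ, w < v → ∃ r' ∈ Rp, (r' : ℝ) < v := by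
    intro v hv
    have hw3 := hwp _ hp3
    rcases hw3.eq_or_lt with h | h
    · exact ⟨1 / 2, hp3, by rw [← h]; exact hv⟩
    · obtain ⟨r', h1, h2⟩ := exists_rat_btwn (lt_min hv h)
      refine ⟨r', ?_, h2.trans_le (min_le_left _ _)⟩
      have h3 : (r' : ℝ) < ((1 / 2 : ℚ) : ℝ) := h2.trans_le (min_le_right _ _)
      have h4 : r' < 1 / 2 := by exact_mod_cast h3
      have h5 : (r1 : ℝ) < (r' : ℝ) := (hwm r1 hr1).trans_lt h1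
      have h6 : r1 < r' := by exact_mod_cast h5
      have h7 : 1 / 3 ≤ r' := hr1'.1.1.trans h6.le
      refine (hRp _).2 ⟨⟨h7, h4.le⟩, ?_⟩
      by_contra hcon
      push Not at hcon
      have h8 := hwm r' ((hRm _).2 ⟨⟨h7, h4.le⟩, hcon⟩)
      linarith
  -- bounds on the iterates
  have hlo : ∀ g f : ℝ → ℝ, Lf T g f → (∀ r ∈ Rm, ∀ s, G r s ≤ g s) → ∀ (N : ℕ) (s : ℝ),
      s + (N * w - 1) * T.L ≤ f^[N] s := by
    intro g f hgf hle N s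
    have key : ∀ r ∈ Rm, (N : ℝ) * r ≤ (f^[N] s - s) / T.L + 1 := by
      intro r h
      have h' := (hRm r).1 h
      obtain ⟨k1, k2⟩ := hGF r h'.1
      have k3 := rot_lo hκ hgf k1 (hle r h) r.den_pos k2 N s
      rw [Fil_cast (hp0 _ h'.1.1)] at k3
      have k4 : (N : ℝ) * r - 1 ≤ (f^[N] s - s) / T.L := by
        rw [le_div_iff₀ hL]
        linarith
      linarith
    have k5 : (N : ℝ) * w ≤ (f^[N] s - s) / T.L + 1 := by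
      rcases Nat.eq_zero_or_pos N with h0 | h0
      · rw [h0]
        simp
      · have hN : (0 : ℝ) < N := by exact_mod_cast h0
        have : w ≤ ((f^[N] s - s) / T.L + 1) / N := by
          rw [hw]
          refine csSup_le ⟨_, r1, hr1, rfl⟩ ?_
          rintro _ ⟨r, h, rfl⟩
          rw [le_div_iff₀ hN]
          have := key r h
          show (r : ℝ) * N ≤ _
          linarith
        rw [le_div_iff₀ hN] at this
        linarith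
    have k6 : ((N : ℝ) * w - 1) * T.L ≤ f^[N] s - s := by
      rw [← le_div_iff₀ hL]
      linarith
    linarith
  have hup : ∀ g f : ℝ → ℝ, Lf T g f → (∀ r ∈ Rp, ∀ s, g s ≤ G r s) → ∀ (N : ℕ) (s : ℝ),
      f^[N] s ≤ s + (N * w + 1) * T.L := by
    intro g f hgf hle N s
    have key : ∀ r ∈ Rp, (f^[N] s - s) / T.L - 1 ≤ (N : ℝ) * r := by
      intro r h
      have h' := (hRp r).1 h
      obtain ⟨k1, k2⟩ := hGF r h'.1
      have k3 := rot_up hκ hgf k1 (hle r h) r.den_pos k2 N s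
      rw [Fil_cast (hp0 _ h'.1.1)] at k3
      have k4 : (f^[N] s - s) / T.L ≤ (N : ℝ) * r + 1 := by
        rw [div_le_iff₀ hL]
        linarith
      linarith
    have k5 : (f^[N] s - s) / T.L - 1 ≤ (N : ℝ) * w := by
      rcases Nat.eq_zero_or_pos N with h0 | h0
      · rw [h0]
        simp
      · have hN : (0 : ℝ) < N := by exact_mod_cast h0
        have : ((f^[N] s - s) / T.L - 1) / N ≤ w := by
          refine le_of_forall_pos_le_add fun ε hε => ?_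
          obtain ⟨r', h1, h2⟩ := hwup (w + ε) (by linarith)
          have h3 := key r' h1
          rw [div_le_iff₀ hN]
          have h4 : (r' : ℝ) * N ≤ (w + ε) * N := mul_le_mul_of_nonneg_right h2.le hN.le
          linarith
        rw [div_le_iff₀ hN] at this
        linarith
    have k6 : f^[N] s - s ≤ ((N : ℝ) * w + 1) * T.L := by
      rw [← div_le_iff₀ hL]
      linarith
    linarith
  -- the two limit leaves
  have hleafm : ∀ r, (1 / 3 ≤ r ∧ r ≤ 1 / 2) → T.Leaf (G r) := fun r h => (hGF r h).1.leaf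
  have hchain : ∀ r r', (1 / 3 ≤ r ∧ r ≤ 1 / 2) → (1 / 3 ≤ r' ∧ r' ≤ 1 / 2) →
      (∀ s, G r s ≤ G r' s) ∨ (∀ s, G r' s ≤ G r s) := by
    intro r r' h h'
    rcases le_total r r' with h1 | h1
    · exact Or.inl (hordle r r' h.1 h1 h'.2)
    · exact Or.inr (hordle r' r h'.1 h1 h.2)
  obtain ⟨gm, hgm⟩ : ∃ gm : ℝ → ℝ, gm = fun s => sSup ((fun G' : ℝ → ℝ => G' s) '' (G '' Rm)) := ⟨_, rfl⟩
  obtain ⟨gp, hgp⟩ : ∃ gp : ℝ → ℝ, gp = fun s => sInf ((fun G' : ℝ → ℝ => G' s) '' (G '' Rp)) := ⟨_, rfl⟩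
  have hlm : T.Leaf gm := by
    rw [hgm]
    refine leaf_sup hκ ⟨_, r1, hr1, rfl⟩ ?_ ?_ (b := G (1 / 2)) (fun s => (hU1.leaf.mem s).2) ?_
    · rintro _ ⟨r, h, rfl⟩
      exact hleafm r ((hRm r).1 h).1
    · rintro _ ⟨r, h, rfl⟩ _ ⟨r', h', rfl⟩
      exact hchain r r' ((hRm r).1 h).1 ((hRm r').1 h').1
    · rintro _ ⟨r, h, rfl⟩ s
      have h' := ((hRm r).1 h).1
      exact hordle r (1 / 2) h'.1 h'.2 le_rfl s
  have hlp : T.Leaf gp := by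
    rw [hgp]
    refine leaf_inf hκ ⟨_, 1 / 2, hp3, rfl⟩ ?_ ?_ (b := G r1) (fun s => ((hleafm r1 hr1'.1).mem s).1) ?_
    · rintro _ ⟨r, h, rfl⟩
      exact hleafm r ((hRp r).1 h).1
    · rintro _ ⟨r, h, rfl⟩ _ ⟨r', h', rfl⟩
      exact hchain r r' ((hRp r).1 h).1 ((hRp r').1 h').1
    · rintro _ ⟨r, h, rfl⟩ s
      exact hordle r1 r hr1'.1.1 (hmp r1 hr1 r h).le ((hRp r).1 h).1.2 s
  have hbm : ∀ s, BddAbove ((fun G' : ℝ → ℝ => G' s) '' (G '' Rm)) := by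
    intro s
    refine ⟨G (1 / 2) s, ?_⟩
    rintro _ ⟨_, ⟨r, h, rfl⟩, rfl⟩
    have h' := ((hRm r).1 h).1
    exact hordle r (1 / 2) h'.1 h'.2 le_rfl s
  have hbp : ∀ s, BddBelow ((fun G' : ℝ → ℝ => G' s) '' (G '' Rp)) := by
    intro s
    refine ⟨G r1 s, ?_⟩
    rintro _ ⟨_, ⟨r, h, rfl⟩, rfl⟩
    exact hordle r1 r hr1'.1.1 (hmp r1 hr1 r h).le ((hRp r).1 h).1.2 s
  have m1 : ∀ r ∈ Rm, ∀ s, G r s ≤ gm s := by
    intro r h s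
    rw [hgm]
    exact le_csSup (hbm s) ⟨G r, ⟨r, h, rfl⟩, rfl⟩
  have m2 : ∀ r ∈ Rp, ∀ s, gp s ≤ G r s := by
    intro r h s
    rw [hgp]
    exact csInf_le (hbp s) ⟨G r, ⟨r, h, rfl⟩, rfl⟩
  have m3 : ∀ r ∈ Rp, ∀ s, gm s ≤ G r s := by
    intro r' h' s
    rw [hgm]
    refine csSup_le ⟨_, G r1, ⟨r1, hr1, rfl⟩, rfl⟩ ?_
    rintro _ ⟨_, ⟨r, h, rfl⟩, rfl⟩
    exact hordle r r' ((hRm r).1 h).1.1 (hmp r h r' h').le ((hRp r').1 h').1.2 s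
  have m4 : ∀ s, gm s ≤ gp s := by
    intro s
    rw [hgp]
    refine le_csInf ⟨_, G (1 / 2), ⟨1 / 2, hp3, rfl⟩, rfl⟩ ?_
    rintro _ ⟨_, ⟨r, h, rfl⟩, rfl⟩
    exact m3 r h s
  have m5 : ∀ r ∈ Rm, ∀ s, G r s ≤ gp s := fun r h s => (m1 r h s).trans (m4 s)
  have m6 : gm s0 ≤ θ0 := by
    rw [hgm]
    refine csSup_le ⟨_, G r1, ⟨r1, hr1, rfl⟩, rfl⟩ ?_
    rintro _ ⟨_, ⟨r, h, rfl⟩, rfl⟩
    exact ((hRm r).1 h).2
  have m7 : θ0 ≤ gp s0 := by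
    rw [hgp]
    refine le_csInf ⟨_, G (1 / 2), ⟨1 / 2, hp3, rfl⟩, rfl⟩ ?_
    rintro _ ⟨_, ⟨r, h, rfl⟩, rfl⟩
    exact ((hRp r).1 h).2.le
  obtain ⟨fm, hfm⟩ := lf_exists hκ hlm
  obtain ⟨fp, hfp⟩ := lf_exists hκ hlp
  by_cases hirr : Irrational w
  · have heq := gap_irr hκ hfm hfp m4 hirr (hlo gm fm hfm m1) (hup gp fp hfp m2)
    refine ⟨gm, hlm, le_antisymm m6 ?_⟩
    rw [heq]
    exact m7
  · unfold Irrational at hirr
    push Not at hirr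
    obtain ⟨r, hrw⟩ := hirr
    have hr1w := hwm r1 hr1
    have hw3 := hwp _ hp3
    rw [← hrw] at hr1w hw3
    have hr1r : r1 ≤ r := by exact_mod_cast hr1w
    have hr3 : r ≤ 1 / 2 := by exact_mod_cast hw3
    have hr0 : 1 / 3 ≤ r := hr1'.1.1.trans hr1r
    obtain ⟨k1, k2⟩ := hGF r ⟨hr0, hr3⟩
    have hcast := Fil_cast (hp0 r hr0)
    rcases le_or_gt (G r s0) θ0 with hc | hc
    · have hm : r ∈ Rm := (hRm r).2 ⟨⟨hr0, hr3⟩, hc⟩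
      have heq := gap_up hκ k1 hfp (m5 r hm) r.den_pos k2 (by
        rw [hcast, hrw]
        exact hup gp fp hfp m2)
      refine ⟨G r, k1.leaf, le_antisymm hc ?_⟩
      rw [heq]
      exact m7
    · have hp : r ∈ Rp := (hRp r).2 ⟨⟨hr0, hr3⟩, hc⟩
      have heq := gap_lo hκ hfm k1 (m3 r hp) r.den_pos k2 (by
        rw [hcast, hrw]
        exact hlo gm fm hfm m1)
      exfalso
      rw [heq] at m6
      linarith

end Pool.Agent.H1.BS
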