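/-
Main theorems (rigidity away from the boundary).
-/
import Mathlib
import Pool.Agent.H1.BR.Main
import Pool.Agent.H50.BQ.Fin2
import Pool.Agent.H1.BS.Fl
import Pool.Agent.H1.BS.Cs

set_option autoImplicit false

namespace Pool.Agent.H1.BS

open Set Filter Topology Pool.Agent.H46.BL Pool.Agent.H50.BQ

/-- invariant circles of periodic points for all rational rotation numbers in `[1/3, 1/2]` -/
theorem main_rational (T : Table)
    (h : ∀ p q : ℕ, Nat.Coprime p q → 0 < p → q ≤ 3 * p → 2 * p ≤ q → Pool.Agent.H50.BQ.Circle T p q) : Disc T := by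
  have hκ : ∀ s, 0 < deriv T.τ s := by
    obtain ⟨g, hg, -⟩ := h 1 3 (by decide) one_pos (by norm_num) (by norm_num)
    exact fun s => mather T hg s
  obtain ⟨g, f, g2, f2, hl, h3, hl2, h2, hfill⟩ := fill_between (T := T) hκ (by
    intro p q hp hq hq2
    have hd : 0 < Nat.gcd p q := Nat.gcd_pos_of_pos_left q hp
    obtain ⟨d, hdd⟩ : ∃ d, d = Nat.gcd p q := ⟨_, rfl⟩
    obtain ⟨p', hp'⟩ : d ∣ p := by rw [hdd]; exact Nat.gcd_dvd_left p q
    obtain ⟨q', hq'⟩ : d ∣ q := by rw [hdd]; exact Nat.gcd_dvd_right p q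
    rw [← hdd] at hd
    have hcop : Nat.Coprime p' q' := by
      have h1 : Nat.gcd (d * p') (d * q') = d * Nat.gcd p' q' := Nat.gcd_mul_left d p' q'
      rw [← hp', ← hq', ← hdd] at h1
      have h2 : d * Nat.gcd p' q' = d * 1 := by rw [← h1, mul_one]
      exact Nat.eq_of_mul_eq_mul_left hd h2
    have hp0 : 0 < p' := by
      rcases Nat.eq_zero_or_pos p' with h0 | h0
      · rw [h0, mul_zero] at hp'; omega
      · exact h0
    have hq0 : q' ≤ 3 * p' := by
      have h1 : d * q' ≤ d * (3 * p') := by rw [← hq']; rw [hp'] at hq; linarith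
      exact Nat.le_of_mul_le_mul_left h1 hd
    have hq1 : 2 * p' ≤ q' := by
      have h1 : d * (2 * p') ≤ d * q' := by rw [← hq']; rw [hp'] at hq2; linarith
      exact Nat.le_of_mul_le_mul_left h1 hd
    obtain ⟨g, hg, hx⟩ := h p' q' hcop hp0 hq0 hq1
    obtain ⟨f, hf⟩ := lf_exists hκ hg
    have hper : ∀ s, f^[q'] s = s + p' * T.L := by
      intro s
      obtain ⟨x, hx0, hxb, hxq⟩ := hx s
      have hxi : ∀ i, x i = f^[i] s := by
        intro i
        induction i with
        | zero => exact hx0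
        | succ i ih =>
          rw [Function.iterate_succ_apply', ← ih]
          exact (hf.next hκ (hxb i)).1
      rw [← hxi, hxq]
    refine ⟨g, f, hf, fun s => ?_⟩
    have h1 := it_mul hκ hf hper d s
    rw [hq', mul_comm d q', h1, hp']
    push_cast
    ring)
  exact disc_of_fill hκ hl h3 hl2 h2 hfill

/-- If for all `p / q` in `[1/3, 1/2]` (lowest terms) every longest inscribed polygon with `q` vertices winding `p`
times has a side along which the first integral is somewhere regular, the table is a disc. -/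
theorem main_regular (T : Table) {F : ℂ → ℂ → ℝ} (hF : T.Integral F)
    (hreg : ∀ p q : ℕ, Nat.Coprime p q → 0 < p → q ≤ 3 * p → 2 * p ≤ q → ∀ x, Pool.Agent.H1.BR.Longest T p q x →
      ∃ i, ∃ t ∈ Ioo (0 : ℝ) 1,
        Pool.Agent.H1.BR.Regular F (Pool.Agent.H1.BR.stt T (x i) (x (i + 1)) t)) : Disc T := by
  have hκ : ∀ s, 0 < deriv T.τ s :=
    (Pool.Agent.H1.BR.main_circle hF one_pos (by norm_num) (hreg 1 3 (by decide) one_pos (by norm_num) (by norm_num))).2
  refine main_rational T fun p q hc hp hpq hpq2 => ?_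
  obtain ⟨φ, hφ, hper⟩ :=
    (Pool.Agent.H1.BR.main_circle hF hp (by omega) (hreg p q hc hp hpq hpq2)).1
  exact circle_of_circ hκ hφ hper

end Pool.Agent.H1.BS
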