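/-
ROW Rr.  The inradius is 2pi-periodic.
PROOF.  a = ps X s, d = dd X s, x = X s = a - d, y = X (s+2pi) = f (X s) = a + d.  With h a = (h a - qn q a) + qn q a and h' a = qt q a:
 p0 h x y = h a cos d - h' a sin d = rr s + (qn q a cos d - qt q a sin d) = rr s + qn q (a - d)   [qn q (a - d) = qn q a cos d - qt q a sin d: cos_sub, sin_sub].
 p1 h x y = h a cos d + h' a sin d = rr s + qn q (a + d).
 hf.inv x : p1 h x (f x) = p0 h (f x) (f (f x)); the right side is rr (s+2pi) + qn (q (s+2pi)) (X (s+2pi)) by the first line at s+2pi; q (s+2pi) = q s.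
-/
import Pool.Agent.H1.BS.Defs

set_option autoImplicit false

namespace Pool.Agent.H1.BS

open Pool.Agent.H1.BP

variable {h : ℝ → ℝ}

private theorem qn_sub (q : ℂ) (a d : ℝ) :
    qn q (a - d) = qn q a * Real.cos d - qt q a * Real.sin d := by
  unfold qn qt
  rw [Real.cos_sub, Real.sin_sub]
  ring

private theorem qn_add (q : ℂ) (a d : ℝ) :
    qn q (a + d) = qn q a * Real.cos d + qt q a * Real.sin d := by
  unfold qn qt
  rw [Real.cos_add, Real.sin_add]
  ring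

private theorem p0_eq {f : ℝ → ℝ} {X : ℝ → ℝ} (hXf : ∀ s, X (s + 2 * Real.pi) = f (X s)) (s : ℝ) :
    p0 h (X s) (f (X s)) =
      h (ps X s) * Real.cos (dd X s) - deriv h (ps X s) * Real.sin (dd X s) := by
  have h1 : (X s + f (X s)) / 2 = ps X s := by
    unfold ps
    rw [hXf s, add_comm]
  have h2 : (f (X s) - X s) / 2 = dd X s := by
    unfold dd
    rw [hXf s]
  unfold p0
  rw [h1, h2]

private theorem p1_eq {f : ℝ → ℝ} {X : ℝ → ℝ} (hXf : ∀ s, X (s + 2 * Real.pi) = f (X s)) (s : ℝ) :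
    p1 h (X s) (f (X s)) =
      h (ps X s) * Real.cos (dd X s) + deriv h (ps X s) * Real.sin (dd X s) := by
  have h1 : (X s + f (X s)) / 2 = ps X s := by
    unfold ps
    rw [hXf s, add_comm]
  have h2 : (f (X s) - X s) / 2 = dd X s := by
    unfold dd
    rw [hXf s]
  unfold p1
  rw [h1, h2]

private theorem X_sub (X : ℝ → ℝ) (s : ℝ) : ps X s - dd X s = X s := by
  unfold ps dd
  ring

private theorem X_add (X : ℝ → ℝ) (s : ℝ) : ps X s + dd X s = X (s + 2 * Real.pi) := by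
  unfold ps dd
  ring

theorem p0_rr {f : ℝ → ℝ} {X : ℝ → ℝ} (hXf : ∀ s, X (s + 2 * Real.pi) = f (X s)) {q : ℝ → ℂ}
    (hqt : ∀ s, deriv h (ps X s) = qt (q s) (ps X s)) (s : ℝ) :
    p0 h (X s) (f (X s)) = rr h X q s + qn (q s) (X s) := by
  have h1 := qn_sub (q s) (ps X s) (dd X s)
  rw [X_sub] at h1
  rw [p0_eq hXf s, hqt s, h1]
  unfold rr
  ring

theorem rr_per {f : ℝ → ℝ} (hf : Circle h f) {X : ℝ → ℝ} (hXf : ∀ s, X (s + 2 * Real.pi) = f (X s)) {q : ℝ → ℂ}
    (hq : ∀ s, q (s + 2 * Real.pi) = q s) (hqt : ∀ s, deriv h (ps X s) = qt (q s) (ps X s)) (s : ℝ) :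
    rr h X q (s + 2 * Real.pi) = rr h X q s := by
  have h1 := hf.inv (X s)
  have h2 := p0_rr (h := h) hXf hqt (s + 2 * Real.pi)
  rw [hXf s, hq s] at h2
  rw [h2] at h1
  have h3 := qn_add (q s) (ps X s) (dd X s)
  rw [X_add, hXf s] at h3
  rw [p1_eq hXf s, hqt s, h3] at h1
  have h4 : rr h X q s = Real.cos (dd X s) * (h (ps X s) - qn (q s) (ps X s)) := rfl
  rw [h4]
  linear_combination -h1

end Pool.Agent.H1.BS
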